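import Pool.Agent.MP_12a176_ag.Defs
import Mathlib

section

/- Algebra of the Chern polynomials. -/

set_option autoImplicit false

namespace Pool.Agent.MP_12a176_ag

open Complex Finset Matrix MvPolynomial
open scoped ComplexOrder

noncomputable section

variable {m : ℕ} {R : Type} [CommRing R] [Algebra ℂ R]

/-- Evaluation of a polynomial at the entries of a matrix. -/
abbrev ev (Θ : Matrix (Fin m) (Fin m) R) : MvPolynomial (Fin m × Fin m) ℂ →ₐ[ℂ] R :=
  aeval fun a => Θ a.1 a.2

theorem chern_minors (k : ℕ) : chernPoly m k = ∑ s ∈ univ.powersetCard k,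
    (((I / (2 * Real.pi)) • mvPolynomialX (Fin m) (Fin m) ℂ).submatrix
      (Subtype.val : s → Fin m) (Subtype.val : s → Fin m)).det := by
  rw [← coeff_det_one_add_X_smul_eq_sum_minors, chernPoly, charpolyRev, neg_smul,
    Matrix.map_neg _ (map_neg _), smul_neg, sub_neg_eq_add]

theorem ev_chern (Θ : Matrix (Fin m) (Fin m) R) (k : ℕ) : ev Θ (chernPoly m k) =
    (det (1 + (Polynomial.X : Polynomial R) • ((I / (2 * Real.pi)) • Θ).map Polynomial.C)).coeff k := by
  rw [chern_minors, coeff_det_one_add_X_smul_eq_sum_minors, map_sum]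
  refine sum_congr rfl fun s _ => ?_
  rw [AlgHom.map_det]
  congr 1
  ext a b
  simp

theorem chern_homog (k : ℕ) : (chernPoly m k).IsHomogeneous k := by
  rw [chern_minors]
  refine IsHomogeneous.sum _ _ _ fun s hs => ?_
  rw [det_apply']
  refine IsHomogeneous.sum _ _ _ fun π _ => ?_
  have := IsHomogeneous.prod univ (fun a : s => ((I / (2 * Real.pi)) •
    (X ((π a).1, a.1) : MvPolynomial (Fin m × Fin m) ℂ))) (fun _ => 1) fun a _ => by
      rw [← C_mul']; exact (isHomogeneous_X _ _).C_mul _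
  rw [sum_const, card_univ, Fintype.card_coe, (mem_powersetCard.1 hs).2, smul_eq_mul,
    mul_one] at this
  rw [← map_intCast (C : ℂ →+* MvPolynomial (Fin m × Fin m) ℂ)]
  exact this.C_mul _

/-- Invariance under conjugation. -/
def Inv (P : MvPolynomial (Fin m × Fin m) ℂ) : Prop :=
  ∀ g g' Θ : Matrix (Fin m) (Fin m) ℂ, g * g' = 1 → ev (g' * Θ * g) P = ev Θ P

theorem ev_ev {S : Type} [CommRing S] [Algebra ℂ S] (φ : R →ₐ[ℂ] S) (Θ : Matrix (Fin m) (Fin m) R)
    (P : MvPolynomial (Fin m × Fin m) ℂ) : φ (ev Θ P) = ev (Θ.map φ) P := by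
  rw [← AlgHom.comp_apply, comp_aeval]; rfl

theorem Inv.conj {P : MvPolynomial (Fin m × Fin m) ℂ} (h : Inv P)
    {g g' : Matrix (Fin m) (Fin m) ℂ} (hg : g * g' = 1) (Θ : Matrix (Fin m) (Fin m) R) :
    ev (g'.map (algebraMap ℂ R) * Θ * g.map (algebraMap ℂ R)) P = ev Θ P := by
  have key : ∀ {S : Type} [CommRing S] [Algebra ℂ S] (Θ : Matrix (Fin m) (Fin m) S),
      ev Θ (ev (g'.map C * mvPolynomialX _ _ ℂ * g.map C) P) =
        ev (g'.map (algebraMap ℂ S) * Θ * g.map (algebraMap ℂ S)) P := by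
    intro S _ _ Θ
    rw [ev_ev]
    congr 2
    ext a
    simp [Matrix.mul_apply]
  have : ev (g'.map C * mvPolynomialX _ _ ℂ * g.map C) P = P := by
    refine MvPolynomial.funext fun x => ?_
    have := key (Matrix.of fun a b => x (a, b))
    simp only [Algebra.algebraMap_self, RingHom.coe_id, Matrix.map_id] at this
    exact this.trans (h _ _ _ hg)
  rw [← key, this]

theorem chern_inv (k : ℕ) : Inv (chernPoly m k) := by
  intro g g' Θ hg
  rw [ev_chern, ev_chern, ← Matrix.smul_mul, Matrix.map_mul, ← Matrix.smul_mul,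
    det_one_add_mul_comm, Matrix.mul_smul, ← Matrix.map_mul, Matrix.mul_smul, ← Matrix.mul_assoc,
    hg, Matrix.one_mul]

theorem prod_inv (s : Multiset ℕ) : Inv (s.map (chernPoly m)).prod := by
  intro g g' Θ hg
  simp only [map_multiset_prod, Multiset.map_map, Function.comp, chern_inv _ g g' Θ hg]

theorem prod_homog (s : Multiset ℕ) : (s.map (chernPoly m)).prod.IsHomogeneous s.sum := by
  induction s using Multiset.induction with
  | empty => exact isHomogeneous_one _ _
  | cons k s ih => simpa using (chern_homog k).mul ih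

omit [Algebra ℂ R] in
theorem minors_two (A : Matrix (Fin m) (Fin m) R) : 2 * ∑ s ∈ univ.powersetCard 2,
    (A.submatrix (Subtype.val : s → Fin m) (Subtype.val : s → Fin m)).det =
      A.trace ^ 2 - (A * A).trace := by
  let G : Fin m × Fin m → R := fun p => A p.1 p.1 * A p.2 p.2 - A p.1 p.2 * A p.2 p.1
  have h1 : A.trace ^ 2 - (A * A).trace = ∑ p, G p := by
    simp only [G, trace, Matrix.diag, Matrix.mul_apply, sq, sum_mul_sum, Fintype.sum_prod_type,
      sum_sub_distrib]
  have h2 : ∑ p with p.1 < p.2, G p = ∑ s ∈ univ.powersetCard 2,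
      (A.submatrix (Subtype.val : s → Fin m) (Subtype.val : s → Fin m)).det := by
    refine sum_bij (fun p _ => {p.1, p.2}) ?_ ?_ ?_ ?_
    · intro p hp
      simp [card_pair (mem_filter.1 hp).2.ne]
    · intro p hp q hq h
      have a := (mem_filter.1 hp).2
      have b := (mem_filter.1 hq).2
      rcases Set.pair_eq_pair_iff.1 (by simpa using congrArg ((↑) : Finset (Fin m) → Set (Fin m)) h)
        with h | h
      · exact Prod.ext h.1 h.2
      · rw [h.1, h.2] at a; exact absurd a b.not_gt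
    · intro s hs
      obtain ⟨a, b, hab, rfl⟩ := card_eq_two.1 (mem_powersetCard.1 hs).2
      rcases lt_or_gt_of_ne hab with h | h
      · exact ⟨(a, b), by simpa using h, rfl⟩
      · exact ⟨(b, a), by simpa using h, pair_comm _ _⟩
    · intro p hp
      have a := (mem_filter.1 hp).2
      let e : Fin 2 ≃ ({p.1, p.2} : Finset (Fin m)) :=
        Equiv.ofBijective ![⟨p.1, by simp⟩, ⟨p.2, by simp⟩] (by
          rw [Fintype.bijective_iff_injective_and_card]
          refine ⟨fun i j h => ?_, by rw [Fintype.card_coe, card_pair a.ne]; rfl⟩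
          fin_cases i <;> fin_cases j <;> simp_all [a.ne, a.ne'])
      rw [← det_submatrix_equiv_self e, det_fin_two]
      rfl
  have h3 : ∑ p with p.2 < p.1, G p = ∑ p with p.1 < p.2, G p :=
    sum_equiv (Equiv.prodComm _ _) (by simp) fun p _ => by
      simp only [G, Equiv.prodComm_apply, Prod.fst_swap, Prod.snd_swap]; ring
  rw [h1, ← h2, two_mul, ← sum_filter_add_sum_filter_not univ fun p => p.1 < p.2, add_right_inj,
    ← h3]
  refine sum_subset (fun p => by simpa using le_of_lt) fun p h1 h2 => ?_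
  have : p.1 = p.2 := le_antisymm (by simpa using h2) (by simpa using h1)
  simp [G, this]

theorem ev_chern_two (Θ : Matrix (Fin m) (Fin m) R) (h : Θ.trace = 0) :
    ev Θ (chernPoly m 2) = ((8 * Real.pi ^ 2 : ℝ) : ℂ)⁻¹ • (Θ * Θ).trace := by
  have := minors_two ((I / (2 * Real.pi)) • Θ)
  rw [← coeff_det_one_add_X_smul_eq_sum_minors, ← ev_chern, trace_smul, h, smul_zero,
    Matrix.smul_mul, Matrix.mul_smul, smul_smul, trace_smul, two_mul, ← two_smul ℂ] at this
  rw [← one_smul ℂ (ev Θ _), ← inv_mul_cancel₀ (two_ne_zero' ℂ), mul_smul, this, zero_pow two_ne_zero,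
    zero_sub, ← neg_smul, smul_smul]
  congr 1
  have : (Real.pi : ℂ) ≠ 0 := by exact_mod_cast Real.pi_ne_zero
  push_cast
  field_simp
  rw [I_sq]; norm_num

theorem det_nonneg {H A S : Matrix (Fin m) (Fin m) ℂ} (hH : H.PosDef) (hA : (A * H)ᴴ = -(A * H))
    (hS : S.det ≠ 0) (h : A * S + S * Aᵀ = 0) : 0 ≤ (A * H).det := by
  let w : ℝ → ℂ := fun s => ((s : ℂ) • H + (1 - s : ℂ) • (A * H)).det
  have hw : Continuous w := Continuous.matrix_det (by fun_prop)
  have e : ∀ s t : ℂ, (s • H + t • (A * H)).det = (s • 1 + t • A).det * H.det := fun s t => by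
    rw [← det_mul, Matrix.add_mul, Matrix.smul_mul, Matrix.smul_mul, Matrix.one_mul]
  have e2 : ∀ s t : ℂ, (s • 1 + t • A).det = (s • 1 + (-t) • A).det := fun s t => by
    refine mul_right_cancel₀ hS ?_
    rw [← det_mul, ← det_transpose (s • 1 + (-t) • A), mul_comm, ← det_mul, Matrix.add_mul,
      Matrix.smul_mul, Matrix.smul_mul, eq_neg_of_add_eq_zero_left h]
    simp [Matrix.mul_add]
  have h1 : ∀ s, (w s).im = 0 := fun s => by
    rw [← conj_eq_iff_im, ← star_def, ← det_conjTranspose, conjTranspose_add, conjTranspose_smul,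
      conjTranspose_smul, hA, hH.1.eq, smul_neg, ← neg_smul, e]
    simp only [w, e]
    rw [e2]; simp
  have h2 : ∀ s, 0 < s → w s ≠ 0 := fun s hs h0 => by
    obtain ⟨v, hv, h3⟩ := exists_mulVec_eq_zero_iff.2 h0
    have h4 := hH.dotProduct_mulVec_pos hv
    have h5 : star (star v ⬝ᵥ (A * H) *ᵥ v) = -(star v ⬝ᵥ (A * H) *ᵥ v) := by
      rw [← star_dotProduct, star_mulVec, hA, dotProduct_comm, vecMul_neg, dotProduct_comm,
        neg_dotProduct,
        dotProduct_mulVec]
    have h6 := congrArg (fun u => (star v ⬝ᵥ u).re) h3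
    have h7 := congrArg re h5
    have h8 := (Complex.pos_iff.1 h4).1
    simp only [add_mulVec, smul_mulVec, dotProduct_add, dotProduct_smul, smul_eq_mul, add_re,
      re_ofReal_mul, dotProduct_zero, zero_re, ← ofReal_one, ← ofReal_sub, star_def, conj_re,
      neg_re] at h6 h7
    have h9 : (star v ⬝ᵥ (A * H) *ᵥ v).re = 0 := by linarith
    rw [h9] at h6
    nlinarith
  have h3 : w 0 = (A * H).det := by simp [w]
  have h4 : 0 < (w 1).re := by simpa [w] using (Complex.pos_iff.1 hH.det_pos).1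
  rw [← h3, Complex.nonneg_iff]
  refine ⟨not_lt.1 fun h5 => ?_, (h1 0).symm⟩
  obtain ⟨s, hs, h6⟩ := intermediate_value_Ioo (zero_le_one' ℝ)
    (continuous_re.comp hw).continuousOn ⟨h5, h4⟩
  exact h2 s hs.1 (Complex.ext h6 (h1 s))

end

end Pool.Agent.MP_12a176_ag

end

section

/- Top powers of (1,1)-forms. -/

set_option autoImplicit false

namespace Pool.Agent.MP_12a176_ag

open scoped ComplexConjugate
open Complex Finset

noncomputable section

variable {m : ℕ} {R : Type} [CommRing R] [Algebra ℂ R]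

/-- The (1,1)-form with matrix `ρ`. -/
def form (x : Fin m → Fin m → R) (ρ : Matrix (Fin m) (Fin m) ℂ) : R := ∑ k, ∑ l, ρ k l • x k l

/-- What is used of the products `dz_k ∧ d(conj z_l)`. -/
structure Good (x : Fin m → Fin m → R) : Prop where
  ne : (∏ k, x k k) ≠ 0
  left : ∀ k (u v : Fin m → ℂ), (∑ l, u l • x k l) * (∑ l, v l • x k l) = 0
  right : ∀ k j (u : Fin m → ℂ), (∑ l, u l • x k l) * (∑ l, u l • x j l) = 0

theorem prod_rows {x : Fin m → Fin m → R} (hx : Good x) (ρ : Matrix (Fin m) (Fin m) ℂ) :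
    ∏ k, ∑ l, ρ k l • x k l = ρ.det • ∏ k, x k k := by
  let D : (Fin m → ℂ) [⋀^Fin m]→ₗ[ℂ] R :=
    { (MultilinearMap.mkPiAlgebra ℂ (Fin m) R).compLinearMap
        fun k => Fintype.linearCombination ℂ (x k) with
      map_eq_zero_of_eq' := fun v i j h hij => by
        change ∏ k, ∑ l, v k l • x k l = 0
        rw [← mul_prod_erase _ _ (mem_univ i), ← mul_prod_erase _ _
          (mem_erase.2 ⟨hij.symm, mem_univ j⟩), ← mul_assoc, h, hx.right, zero_mul] }
  have hD : ∀ v, D v = ∏ k, ∑ l, v k l • x k l := fun v => rfl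
  rw [← sub_eq_zero, ← Module.forall_dual_apply_eq_zero_iff ℂ]
  intro T
  have := congrArg (fun f => f ρ) ((T.compAlternatingMap D).eq_smul_basis_det (Pi.basisFun ℂ _))
  simp only [LinearMap.compAlternatingMap_apply, hD, AlternatingMap.smul_apply,
    Pi.basisFun_det_apply, Pi.basisFun_apply] at this
  rw [map_sub, this, map_smul, sub_eq_zero, smul_eq_mul, smul_eq_mul, mul_comm]
  simp only [Pi.single_apply, ite_smul, one_smul, zero_smul, sum_ite_eq', mem_univ, if_true]
  rfl

theorem form_pow : ∃ N : ℕ, 0 < N ∧ ∀ {R : Type} [CommRing R] [Algebra ℂ R]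
    {x : Fin m → Fin m → R}, Good x → ∀ ρ : Matrix (Fin m) (Fin m) ℂ,
    form x ρ ^ m = (N * ρ.det) • ∏ k, x k k := by
  classical
  refine ⟨#{f : Fin m → Fin m | Function.Bijective f},
    card_pos.2 ⟨id, mem_filter.2 ⟨mem_univ _, Function.bijective_id⟩⟩, fun {R} _ _ {x} hx ρ => ?_⟩
  rw [form, Fintype.sum_pow, ← sum_filter_of_ne (p := Function.Bijective), mul_smul,
    ← prod_rows hx, Nat.cast_smul_eq_nsmul, ← sum_const]
  · refine sum_congr rfl fun f hf => ?_
    exact (mem_filter.1 hf).2.prod_comp fun k => ∑ l, ρ k l • x k l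
  · intro f _ hf
    rw [← Finite.injective_iff_bijective]
    intro i j hij
    by_contra hne
    apply hf
    rw [← mul_prod_erase _ _ (mem_univ i), ← mul_prod_erase _ _
      (mem_erase.2 ⟨Ne.symm hne, mem_univ j⟩), ← mul_assoc, hij, hx.left, zero_mul]

/-- The volume form. -/
def vol (x : Fin m → Fin m → R) : R := ∏ k, (I / 2) • x k k

theorem vol_eq (x : Fin m → Fin m → R) : vol x = (I / 2) ^ m • ∏ k, x k k := by
  rw [vol, prod_smul, prod_const, card_univ, Fintype.card_fin]

theorem vol_ne {x : Fin m → Fin m → R} (hx : Good x) : vol x ≠ 0 := by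
  rw [vol_eq]
  exact smul_ne_zero (pow_ne_zero _ (by simp)) hx.ne

theorem eps_eq {x : Fin m → Fin m → R} (hx : Good x) {α : R} {d : ℂ} (h : α = d • vol x) :
    (Classical.epsilon fun e : ℂ => α = e • vol x) = d :=
  smul_left_injective ℂ (vol_ne hx)
    ((Classical.epsilon_spec (p := fun e : ℂ => α = e • vol x) ⟨d, h⟩).symm.trans h)

theorem form_pow_vol (n : ℕ) : ∃ N : ℝ, 0 < N ∧ ∀ {R : Type} [CommRing R] [Algebra ℂ R]
    {x : Fin (2 * n) → Fin (2 * n) → R}, Good x → ∀ ρ : Matrix (Fin (2 * n)) (Fin (2 * n)) ℂ,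
    form x ρ ^ (2 * n) = ((-1) ^ n * N * ρ.det) • vol x := by
  obtain ⟨N, h0, hN⟩ := form_pow (m := 2 * n)
  refine ⟨N * 4 ^ n, by positivity, fun {R} _ _ {x} hx ρ => ?_⟩
  rw [hN hx, vol_eq, smul_smul, pow_mul]
  congr 1
  have : ((-1 : ℂ) ^ n * 4 ^ n) * ((I / 2) ^ 2) ^ n = 1 := by
    rw [← mul_pow, ← mul_pow, div_pow, I_sq]; norm_num
  push_cast
  linear_combination (-(N : ℂ) * ρ.det) * this

section ext

variable {W : Type} [AddCommGroup W] [Module ℂ W]

/-- The products of covectors in the centre. -/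
def xw (a b : Fin m → W) (k l : Fin m) : Subalgebra.center ℂ (ExteriorAlgebra ℂ W) :=
  ⟨wedge (a k) (b l), wedge_central _ _⟩

theorem xw_sum (a b : Fin m → W) (k : Fin m) (u : Fin m → ℂ) :
    ((∑ l, u l • xw a b k l : Subalgebra.center ℂ (ExteriorAlgebra ℂ W)) : ExteriorAlgebra ℂ W) =
      ExteriorAlgebra.ι ℂ (a k) * ExteriorAlgebra.ι ℂ (∑ l, u l • b l) := by
  rw [map_sum, mul_sum]
  refine (map_sum (Subalgebra.center ℂ (ExteriorAlgebra ℂ W)).val _ _).trans
    (sum_congr rfl fun l _ => ?_)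
  rw [map_smul, map_smul, mul_smul_comm]
  rfl

theorem four (a b c d : W) (h : a = c ∨ b = d) : ExteriorAlgebra.ι ℂ a * ExteriorAlgebra.ι ℂ b *
    (ExteriorAlgebra.ι ℂ c * ExteriorAlgebra.ι ℂ d) = 0 := by
  have s := fun a b : W => eq_neg_of_add_eq_zero_left (ExteriorAlgebra.ι_add_mul_swap (R := ℂ) a b)
  rcases h with rfl | rfl
  · rw [s a b, neg_mul, mul_assoc, ← mul_assoc (ExteriorAlgebra.ι ℂ a), ExteriorAlgebra.ι_sq_zero,
      zero_mul, mul_zero, neg_zero]
  · rw [s c b, mul_neg, mul_assoc, ← mul_assoc (ExteriorAlgebra.ι ℂ b), ExteriorAlgebra.ι_sq_zero,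
      zero_mul, mul_zero, neg_zero]

theorem prod_xw_ne (a b : Fin m → W) (α β : Fin m → Module.Dual ℂ W)
    (h1 : ∀ k j, α k (a j) = if j = k then 1 else 0) (h2 : ∀ k j, α k (b j) = 0)
    (h3 : ∀ k j, β k (a j) = 0) (h4 : ∀ k j, β k (b j) = if j = k then 1 else 0)
    (s : Finset (Fin m)) :
    (∏ k ∈ s, xw a b k k) ≠ 0 ∧ ∀ d : Module.Dual ℂ W, (∀ k ∈ s, d (a k) = 0 ∧ d (b k) = 0) →
      CliffordAlgebra.contractLeft d (∏ k ∈ s, xw a b k k).1 = 0 := by
  induction s using Finset.induction with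
  | empty => exact ⟨by rw [prod_empty]; exact one_ne_zero,
      fun d _ => CliffordAlgebra.contractLeft_one _ _⟩
  | insert k s hk ih =>
    rw [prod_insert hk]
    set y := ∏ k ∈ s, xw a b k k
    have e : ∀ d : Module.Dual ℂ W, CliffordAlgebra.contractLeft d y.1 = 0 →
        CliffordAlgebra.contractLeft d (xw a b k k * y).1 =
          d (a k) • (CliffordAlgebra.ι 0 (b k) * y.1) - d (b k) • (CliffordAlgebra.ι 0 (a k) * y.1) := by
      intro d hd
      change CliffordAlgebra.contractLeft d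
        (CliffordAlgebra.ι 0 (a k) * CliffordAlgebra.ι 0 (b k) * y.1) = _
      rw [mul_assoc, CliffordAlgebra.contractLeft_ι_mul, CliffordAlgebra.contractLeft_ι_mul, hd]
      simp
    have hne : ∀ j ∈ s, j ≠ k := fun j hj h => hk (h ▸ hj)
    refine ⟨fun h => ih.1 (Subtype.ext ?_), fun d hd => ?_⟩
    · have e1 := e _ (ih.2 (α k) fun j hj => ⟨by rw [h1, if_neg (hne j hj)], h2 _ _⟩)
      have e2 := ih.2 (β k) fun j hj => ⟨h3 _ _, by rw [h4, if_neg (hne j hj)]⟩
      rw [h, h1, h2, if_pos rfl, one_smul, zero_smul, sub_zero] at e1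
      have e3 := congrArg (CliffordAlgebra.contractLeft (β k)) e1
      rw [CliffordAlgebra.contractLeft_ι_mul, e2, h4, if_pos rfl] at e3
      simpa using e3.symm
    · rw [e _ (ih.2 d fun j hj => hd j (mem_insert_of_mem hj)), (hd k (mem_insert_self _ _)).1,
        (hd k (mem_insert_self _ _)).2]
      simp

end ext

/-- The Wirtinger components of a covector. -/
def comp (k : Fin m) (c : ℂ) : Module.Dual ℂ ((Fin m → ℂ) →ₗ[ℝ] ℂ) where
  toFun a := (a (Pi.single k 1) + c * a (Pi.single k I)) / 2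
  map_add' a b := by simp only [LinearMap.add_apply]; ring
  map_smul' r a := by simp only [LinearMap.smul_apply, smul_eq_mul, RingHom.id_apply]; ring

theorem good_dz : Good (xw (dz (m := m)) dzb) where
  ne := (prod_xw_ne dz dzb (fun k => comp k (-I)) (fun k => comp k I)
    (fun k j => by by_cases h : j = k <;> simp [comp, dz, h])
    (fun k j => by by_cases h : j = k <;> simp [comp, dzb, h])
    (fun k j => by by_cases h : j = k <;> simp [comp, dz, h])
    (fun k j => by by_cases h : j = k <;> simp [comp, dzb, h]) univ).1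
  left k u v := Subtype.ext ((congrArg₂ (· * ·) (xw_sum _ _ k u) (xw_sum _ _ k v)).trans
    (four _ _ _ _ (Or.inl rfl)))
  right k j u := Subtype.ext ((congrArg₂ (· * ·) (xw_sum _ _ k u) (xw_sum _ _ j u)).trans
    (four _ _ _ _ (Or.inr rfl)))

end

end Pool.Agent.MP_12a176_ag

end

section

/- Homogeneous polynomials are dominated by the power of the sum of squares, against functionals
that are nonnegative on powers of real linear forms. -/

set_option autoImplicit false

namespace Pool.Agent.MP_12a176_ag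

open MvPolynomial MeasureTheory Finset
open scoped ComplexConjugate ComplexOrder

noncomputable section

variable {ι : Type} [Fintype ι] [DecidableEq ι]

/-- A real linear form. -/
def lin (g : ι → ℝ) : MvPolynomial ι ℂ := ∑ a, (g a : ℂ) • X a

theorem polar {P : MvPolynomial ι ℂ} {m : ℕ} (hP : P.IsHomogeneous m)
    (Λ : MvPolynomial ι ℂ →ₗ[ℂ] ℂ) (h : ∀ g, Λ (lin g ^ m) = 0) : Λ P = 0 := by
  let F : MvPolynomial ι ℂ := ∑ k ∈ piAntidiag univ m,
    monomial (Finsupp.equivFunOnFinite.symm k) (Nat.multinomial univ k * Λ (∏ a, X a ^ k a))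
  have hF : F = 0 := by
    refine MvPolynomial.funext_set (fun _ => Set.range ((↑) : ℝ → ℂ))
      (fun _ => Set.infinite_range_of_injective Complex.ofReal_injective) fun x hx => ?_
    choose g hg using fun a => hx a trivial
    rw [map_zero, ← h g, lin, sum_pow_eq_sum_piAntidiag, map_sum, map_sum]
    refine sum_congr rfl fun k _ => ?_
    rw [eval_monomial, Finsupp.prod_fintype _ _ (by simp), ← nsmul_eq_mul, ← nsmul_eq_mul,
      map_nsmul, smul_mul_assoc]
    simp only [smul_pow, prod_smul, map_smul, smul_eq_mul, hg, Finsupp.coe_equivFunOnFinite_symm]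
    rw [mul_comm]
  rw [P.as_sum, map_sum]
  refine sum_eq_zero fun d hd => ?_
  have e := congrArg (coeff d) hF
  have hd' : (d : ι → ℕ) ∈ piAntidiag univ m := by
    have := hP (mem_support_iff.1 hd)
    simp only [mem_piAntidiag, mem_univ, implies_true, and_true]
    rw [← this, Finsupp.weight_apply, Finsupp.sum_fintype _ _ (by simp)]
    simp
  rw [coeff_sum, sum_eq_single (d : ι → ℕ) (fun k _ hk => by
    rw [coeff_monomial, if_neg fun h => hk (by rw [← h]; rfl)]) (fun h => absurd hd' h)] at e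
  simp only [Finsupp.equivFunOnFinite_symm_coe, coeff_monomial, if_true, coeff_zero, mul_eq_zero,
    Nat.cast_eq_zero, (Nat.multinomial_pos _ _).ne', false_or] at e
  rw [monomial_eq, C_mul', map_smul, Finsupp.prod_fintype _ _ (by simp), e, smul_zero]

omit [Fintype ι] [DecidableEq ι] in
theorem mem_of_dual (W : Submodule ℂ (MvPolynomial ι ℂ)) (P : MvPolynomial ι ℂ)
    (h : ∀ Λ : MvPolynomial ι ℂ →ₗ[ℂ] ℂ, (∀ w ∈ W, Λ w = 0) → Λ P = 0) : P ∈ W := by
  by_contra hP
  obtain ⟨Λ, h1, h2⟩ := W.exists_dual_map_eq_bot_of_notMem hP inferInstance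
  exact h1 (h Λ fun w hw => (Submodule.eq_bot_iff _).1 h2 _ ⟨w, hw, rfl⟩)

theorem mem_span_lin {P : MvPolynomial ι ℂ} {m : ℕ} (hP : P.IsHomogeneous m) :
    P ∈ Submodule.span ℂ (Set.range fun g => lin (ι := ι) g ^ m) :=
  mem_of_dual _ _ fun Λ h => polar hP Λ fun g => h _ (Submodule.subset_span ⟨g, rfl⟩)

omit [DecidableEq ι] in
theorem lin_pow (Λ : MvPolynomial ι ℂ →ₗ[ℂ] ℂ) (m : ℕ) (g : ι → ℝ) :
    Λ (lin g ^ m) = ∑ j : Fin m → ι, (∏ i, (g (j i) : ℂ)) * Λ (∏ i, X (j i)) := by
  rw [lin, Fintype.sum_pow, map_sum]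
  exact sum_congr rfl fun j _ => by rw [prod_smul, map_smul, smul_eq_mul]

omit [DecidableEq ι] in
theorem cont_lin (Λ : MvPolynomial ι ℂ →ₗ[ℂ] ℂ) (m : ℕ) :
    Continuous fun g : EuclideanSpace ℝ ι => Λ (lin g ^ m) := by
  simp only [lin_pow]; fun_prop

/-- A weight. -/
def wt (g : EuclideanSpace ℝ ι) : ℝ := max 0 (1 - ‖g‖)

omit [DecidableEq ι] in
theorem wt_cont : Continuous (wt (ι := ι)) := by unfold wt; fun_prop

omit [DecidableEq ι] in
theorem wt_supp : HasCompactSupport (wt (ι := ι)) :=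
  HasCompactSupport.intro (isCompact_closedBall 0 1) fun g hg =>
    max_eq_left (by simp only [mem_closedBall_zero_iff, not_le] at hg; linarith)

omit [DecidableEq ι] in
theorem wt_int {F : Type} [NormedAddCommGroup F] [NormedSpace ℝ F] {φ : EuclideanSpace ℝ ι → F}
    (h : Continuous φ) : Integrable fun g => wt g • φ g :=
  (wt_cont.smul h).integrable_of_hasCompactSupport wt_supp.smul_right

/-- An average of powers of linear forms. -/
def avg (m : ℕ) (φ : EuclideanSpace ℝ ι → ℂ) : MvPolynomial ι ℂ :=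
  ∑ j : Fin m → ι, (∫ g, wt g • (φ g * ∏ i, (g (j i) : ℂ))) • ∏ i, X (j i)

omit [DecidableEq ι] in
theorem avg_apply (Λ : MvPolynomial ι ℂ →ₗ[ℂ] ℂ) (m : ℕ) {φ : EuclideanSpace ℝ ι → ℂ}
    (h : Continuous φ) : Λ (avg m φ) = ∫ g, wt g • (φ g * Λ (lin g ^ m)) := by
  simp only [avg, map_sum, map_smul, smul_eq_mul, lin_pow, mul_sum, smul_sum, ← integral_mul_const]
  rw [integral_finsetSum]
  · simp only [smul_mul_assoc, mul_assoc]
  · exact fun j _ => wt_int (by fun_prop)

theorem bound_l1 {P : MvPolynomial ι ℂ} {m : ℕ} (hP : P.IsHomogeneous m) :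
    ∃ C : ℝ, ∀ Λ : MvPolynomial ι ℂ →ₗ[ℂ] ℂ,
      ‖Λ P‖ ≤ C * ∫ g : EuclideanSpace ℝ ι, wt g • ‖Λ (lin g ^ m)‖ := by
  let W : Submodule ℂ (MvPolynomial ι ℂ) :=
    { carrier := {P | ∃ C : ℝ, ∀ Λ : MvPolynomial ι ℂ →ₗ[ℂ] ℂ,
        ‖Λ P‖ ≤ C * ∫ g : EuclideanSpace ℝ ι, wt g • ‖Λ (lin g ^ m)‖}
      add_mem' := fun ⟨C, h⟩ ⟨C', h'⟩ => ⟨C + C', fun Λ => by
        rw [map_add, add_mul]; exact (norm_add_le _ _).trans (add_le_add (h Λ) (h' Λ))⟩
      zero_mem' := ⟨0, by simp⟩
      smul_mem' := fun c P ⟨C, h⟩ => ⟨‖c‖ * C, fun Λ => by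
        rw [map_smul, norm_smul, mul_assoc]
        exact mul_le_mul_of_nonneg_left (h Λ) (norm_nonneg _)⟩ }
  have hW : ∀ φ : EuclideanSpace ℝ ι → ℂ, Continuous φ → avg m φ ∈ W := by
    intro φ hφ
    obtain ⟨C, hC⟩ := wt_supp.isCompact.exists_bound_of_continuousOn hφ.continuousOn
    refine ⟨C, fun Λ => ?_⟩
    rw [avg_apply Λ m hφ, ← integral_const_mul]
    refine norm_integral_le_of_norm_le ((wt_int (cont_lin Λ m).norm).const_mul C)
      (.of_forall fun g => ?_)
    by_cases h : wt g = 0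
    · simp [h]
    · have h1 := hC g (subset_tsupport _ h)
      have h2 : 0 ≤ wt g := le_max_left _ _
      rw [norm_smul, norm_mul, Real.norm_of_nonneg h2, smul_eq_mul, mul_left_comm]
      gcongr
  refine mem_of_dual W P fun Λ h => polar hP Λ fun g => ?_
  have hc := cont_lin Λ m
  have h1 := h _ (hW _ (Complex.continuous_conj.comp hc))
  rw [avg_apply Λ m (Complex.continuous_conj.comp hc)] at h1
  simp only [Function.comp, Complex.conj_mul', Complex.real_smul] at h1
  norm_cast at h1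
  by_contra hne
  let u : EuclideanSpace ℝ ι := WithLp.toLp 2 g
  have ht : 0 < (‖u‖ + 1)⁻¹ := by positivity
  refine (Continuous.integral_pos_of_hasCompactSupport_nonneg_nonzero (x := (‖u‖ + 1)⁻¹ • u)
    (wt_cont.mul (hc.norm.pow 2)) wt_supp.mul_right
    (fun g => mul_nonneg (le_max_left _ _) (sq_nonneg _)) (mul_ne_zero ?_ ?_)).ne' h1
  · refine (lt_max_of_lt_right ?_).ne'
    rw [norm_smul, Real.norm_of_nonneg ht.le, sub_pos, inv_mul_lt_iff₀ (by positivity)]
    linarith
  · have : lin ((‖u‖ + 1)⁻¹ • u).ofLp = (((‖u‖ + 1)⁻¹ : ℝ) : ℂ) • lin g := by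
      simp only [lin, smul_sum, smul_smul, u, PiLp.smul_apply, smul_eq_mul, Complex.ofReal_mul]
    refine pow_ne_zero _ (norm_ne_zero_iff.2 ?_)
    rw [this, smul_pow, map_smul]
    exact smul_ne_zero (pow_ne_zero _ (by exact_mod_cast ht.ne')) hne

theorem avg_one [Nonempty ι] (n : ℕ) : ∃ c : ℝ, 0 < c ∧
    avg (ι := ι) (2 * n) (fun _ => 1) = (c : ℂ) • (∑ a, X a ^ 2) ^ n := by
  let G : EuclideanSpace ℝ ι → ℝ := fun r => ∫ g, wt g * inner ℝ r g ^ (2 * n)
  have h1 : ∀ r s, ‖r‖ = ‖s‖ → G r = G s := by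
    intro r s h
    let T := Submodule.reflection (ℝ ∙ (r - s))ᗮ
    have hT : T r = s := Submodule.reflection_sub h
    refine Eq.trans ?_ (T.measurePreserving.integral_comp T.toHomeomorph.measurableEmbedding
      fun g => wt g * inner ℝ s g ^ (2 * n))
    simp only [G, ← hT, T.inner_map_map, wt, T.norm_map]
  let e : EuclideanSpace ℝ ι := EuclideanSpace.single (Classical.arbitrary ι) 1
  have he : ‖e‖ = 1 := by simp [e]
  have h2 : ∀ r, G r = G e * (‖r‖ ^ 2) ^ n := by
    intro r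
    rw [h1 r (‖r‖ • e) (by simp [norm_smul, he])]
    simp only [G, real_inner_smul_left, mul_pow, ← pow_mul, ← integral_mul_const]
    congr 1; ext g; ring
  refine ⟨G e, Continuous.integral_pos_of_hasCompactSupport_nonneg_nonzero (x := (1 / 2 : ℝ) • e)
    (wt_cont.mul (by fun_prop)) wt_supp.mul_right
    (fun g => mul_nonneg (le_max_left _ _) (by rw [pow_mul]; positivity)) (mul_ne_zero ?_ ?_), ?_⟩
  · simp [wt, norm_smul, he]; norm_num
  · simp [inner_smul_right, he]
  · refine MvPolynomial.funext_set (fun _ => Set.range ((↑) : ℝ → ℂ))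
      (fun _ => Set.infinite_range_of_injective Complex.ofReal_injective) fun x hx => ?_
    choose r hr using fun a => hx a trivial
    have := avg_apply (aeval x).toLinearMap (2 * n) (φ := fun _ => 1) continuous_const
    simp only [AlgHom.toLinearMap_apply, aeval_eq_eval] at this
    rw [this]
    have h3 := congrArg ((↑) : ℝ → ℂ) (h2 (WithLp.toLp 2 r))
    rw [EuclideanSpace.real_norm_sq_eq] at h3
    simp only [G, ← integral_complex_ofReal, PiLp.inner_apply] at h3
    simp only [smul_eval, map_pow, map_sum, eval_X, lin, ← hr, G, ← integral_complex_ofReal,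
      PiLp.inner_apply]
    convert h3 using 1
    · congr 1; ext g; simp
    · simp [← integral_complex_ofReal]

theorem cone_bound [Nonempty ι] {n : ℕ} {P : MvPolynomial ι ℂ} (hP : P.IsHomogeneous (2 * n)) :
    ∃ C : ℝ, 0 < C ∧ ∀ Λ : MvPolynomial ι ℂ →ₗ[ℂ] ℂ, (∀ g, 0 ≤ Λ (lin g ^ (2 * n))) →
      ‖Λ P‖ ≤ C * (Λ ((∑ a, X a ^ 2) ^ n)).re := by
  obtain ⟨C, hC⟩ := bound_l1 hP
  obtain ⟨c, h0, hc⟩ := avg_one (ι := ι) n
  refine ⟨(|C| + 1) * c, by positivity, fun Λ h => (hC Λ).trans ?_⟩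
  have h1 := avg_apply Λ (2 * n) (φ := fun _ => 1) continuous_const
  have h2 : ∀ g, Λ (lin g ^ (2 * n)) = ‖Λ (lin g ^ (2 * n))‖ := fun g =>
    (Complex.norm_of_nonneg' (h g)).symm
  have h3 : ∫ g : EuclideanSpace ℝ ι, wt g • ‖Λ (lin g ^ (2 * n))‖ =
      c * (Λ ((∑ a, X a ^ 2) ^ n)).re := by
    rw [← Complex.re_ofReal_mul, ← smul_eq_mul (c : ℂ), ← map_smul, ← hc, h1,
      ← Complex.ofReal_re (∫ _, _), ← integral_complex_ofReal]
    congr 2; ext g
    rw [one_mul, h2]; simp
  have h4 : 0 ≤ ∫ g : EuclideanSpace ℝ ι, wt g • ‖Λ (lin g ^ (2 * n))‖ :=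
    integral_nonneg fun g => smul_nonneg (le_max_left _ _) (norm_nonneg _)
  rw [mul_assoc, ← h3]
  exact mul_le_mul_of_nonneg_right (by linarith [le_abs_self C]) h4

end

end Pool.Agent.MP_12a176_ag

end

section

/- The pointwise inequality for curvature tensors of hyper-Kaehler type. -/

set_option autoImplicit false

namespace Pool.Agent.MP_12a176_ag

open Complex Finset Matrix MvPolynomial
open scoped ComplexOrder MatrixOrder

noncomputable section

variable {m n : ℕ} {R : Type} [CommRing R] [Algebra ℂ R]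

/-- The symmetries of the curvature coefficients. -/
structure Curv (H S : Matrix (Fin m) (Fin m) ℂ) (Θ : Fin m → Fin m → Matrix (Fin m) (Fin m) ℂ) :
    Prop where
  pos : H.PosDef
  det : S.det ≠ 0
  herm : ∀ k l, (Θ k l * H)ᴴ = Θ l k * H
  symm : ∀ k l i a, Θ k l i a = Θ i l k a
  sp : ∀ k l, Θ k l * S + S * (Θ k l)ᵀ = 0

variable {H S : Matrix (Fin m) (Fin m) ℂ} {Θ : Fin m → Fin m → Matrix (Fin m) (Fin m) ℂ}

theorem Curv.pair (h : Curv H S Θ) (k l i j : Fin m) : (Θ k l * H) i j = (Θ i j * H) k l := by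
  have h1 : ∀ k l i j, (Θ k l * H) i j = (Θ i l * H) k j := fun k l i j => by
    simp only [Matrix.mul_apply, h.symm k l i]
  rw [h1, ← h.herm, conjTranspose_apply, h1, ← conjTranspose_apply, h.herm]

theorem Curv.det_nonneg (h : Curv H S Θ) {ζ : Matrix (Fin m) (Fin m) ℂ} (hζ : ζᴴ = -ζ) :
    0 ≤ (Matrix.of fun k l => (ζ * (Θ k l * H)).trace).det := by
  have e : (Matrix.of fun k l => (ζ * (Θ k l * H)).trace) = (∑ j, ∑ i, ζ j i • Θ i j) * H := by
    ext k l
    simp only [Matrix.sum_mul, Matrix.smul_mul, Matrix.sum_apply, Matrix.smul_apply, ← h.pair k l,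
      of_apply, trace, Matrix.diag, Matrix.mul_apply (M := ζ), smul_eq_mul]
  rw [e]
  refine Pool.Agent.MP_12a176_ag.det_nonneg h.pos ?_ h.det ?_
  · rw [← e]
    ext k l
    rw [conjTranspose_apply, of_apply, ← trace_conjTranspose, conjTranspose_mul, h.herm, hζ,
      Matrix.mul_neg, trace_neg, trace_mul_comm]
    rfl
  · simp only [Matrix.sum_mul, Matrix.mul_sum, transpose_sum, transpose_smul, Matrix.smul_mul,
      Matrix.mul_smul, ← sum_add_distrib, ← smul_add, h.sp, smul_zero, sum_const_zero]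

theorem Curv.trace (h : Curv H S Θ) (k l : Fin m) : (Θ k l).trace = 0 := by
  have h1 := congrArg (fun A => (A * S⁻¹).trace) (h.sp k l)
  have h2 : IsUnit S.det := h.det.isUnit
  simp only [Matrix.add_mul, trace_add, mul_nonsing_inv_cancel_right _ _ h2, Matrix.zero_mul,
    trace_zero] at h1
  rw [trace_mul_comm, nonsing_inv_mul_cancel_left _ _ h2, trace_transpose] at h1
  linear_combination h1 / 2

/-- `form` as a linear map. -/
def formL (x : Fin m → Fin m → R) : Matrix (Fin m) (Fin m) ℂ →ₗ[ℂ] R where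
  toFun := form x
  map_add' a b := by simp [form, add_smul, sum_add_distrib]
  map_smul' c a := by simp [form, smul_sum, smul_smul]

/-- A matrix of (1,1)-forms. -/
def mform (x : Fin m → Fin m → R) (Θ : Fin m → Fin m → Matrix (Fin m) (Fin m) ℂ) :
    Matrix (Fin m) (Fin m) R := Matrix.of fun a b => formL x (Matrix.of fun k l => Θ k l a b)

/-- A universal matrix. -/
def uni (m : ℕ) : Matrix (Fin m) (Fin m) (MvPolynomial (Fin m × Fin m) ℂ) :=
  Matrix.of fun a b => ((1 + I) / 2) • X (a, b) + ((I - 1) / 2) • X (b, a)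

theorem uni_homog {P : MvPolynomial (Fin m × Fin m) ℂ} {k : ℕ} (h : P.IsHomogeneous k) :
    (ev (uni m) P).IsHomogeneous k := by
  have := h.aeval (n := 1) (fun a => uni m a.1 a.2) fun a => by
    simp only [uni, of_apply, ← C_mul']
    exact ((isHomogeneous_X _ _).C_mul _).add ((isHomogeneous_X _ _).C_mul _)
  rwa [one_mul] at this

theorem uni_sq : (uni m * uni m).trace = -∑ a, X a ^ 2 := by
  have : ∀ a b, uni m a b * uni m b a = (-1 / 2 : ℂ) • (X (a, b) ^ 2 + X (b, a) ^ 2) := by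
    intro a b
    simp only [uni, of_apply, add_mul, mul_add, smul_mul_smul_comm, ← sq,
      mul_comm (X (b, a) : MvPolynomial _ ℂ) (X (a, b))]
    match_scalars <;> (ring_nf; try simp only [I_sq]; ring)
  simp only [trace, Matrix.diag, Matrix.mul_apply, this, ← smul_sum, sum_add_distrib,
    Fintype.sum_prod_type]
  rw [sum_comm (f := fun a b => (X (b, a) : MvPolynomial _ ℂ) ^ 2)]
  module

theorem aeval_lin {ι : Type} [Fintype ι] (x : Fin m → Fin m → R)
    (ρ : ι → Matrix (Fin m) (Fin m) ℂ) (g : ι → ℝ) :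
    aeval (fun a => formL x (ρ a)) (lin g) = form x (∑ a, (g a : ℂ) • ρ a) := by
  change _ = formL x _
  simp only [lin, map_sum, map_smul, aeval_X]

theorem aeval_top {ι : Type} [Fintype ι] [DecidableEq ι] {x : Fin m → Fin m → R} (hx : Good x)
    (ρ : ι → Matrix (Fin m) (Fin m) ℂ) {P : MvPolynomial ι ℂ} (hP : P.IsHomogeneous m)
    {T : R →ₗ[ℂ] ℂ} (hT : T (vol x) = 1) :
    aeval (fun a => formL x (ρ a)) P = T (aeval (fun a => formL x (ρ a)) P) • vol x := by
  have : aeval (fun a => formL x (ρ a)) P ∈ ℂ ∙ vol x := by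
    refine Submodule.span_induction ?_ (by simp) (fun _ _ _ _ h h' => ?_) (fun _ _ _ h => ?_)
      (mem_span_lin hP)
    · rintro _ ⟨g, rfl⟩
      obtain ⟨N, -, hN⟩ := form_pow (m := m)
      rw [map_pow, aeval_lin, hN hx, Submodule.mem_span_singleton]
      refine ⟨(N * (∑ a, (g a : ℂ) • ρ a).det) * ((I / 2) ^ m)⁻¹, ?_⟩
      rw [vol_eq, smul_smul, mul_assoc, inv_mul_cancel₀ (pow_ne_zero _ (by simp)), mul_one]
    · rw [map_add]; exact add_mem h h'
    · rw [map_smul]; exact Submodule.smul_mem _ _ h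
  obtain ⟨d, hd⟩ := Submodule.mem_span_singleton.1 this
  rw [← hd, map_smul, hT, smul_eq_mul, mul_one]

theorem Curv.exists_fun {x : Fin (2 * n) → Fin (2 * n) → R} (hx : Good x)
    {H S : Matrix (Fin (2 * n)) (Fin (2 * n)) ℂ} {Θ : Fin (2 * n) → Fin (2 * n) → Matrix _ _ ℂ}
    (h : Curv H S Θ) : ∃ (φ : MvPolynomial (Fin (2 * n) × Fin (2 * n)) ℂ →ₐ[ℂ] R)
      (Λ : MvPolynomial (Fin (2 * n) × Fin (2 * n)) ℂ →ₗ[ℂ] ℂ), (∀ g, 0 ≤ Λ (lin g ^ (2 * n))) ∧
      ((uni _).map φ).trace = 0 ∧ (∀ P, Inv P → ev (mform x Θ) P = φ (ev (uni _) P)) ∧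
      ∀ P : MvPolynomial _ ℂ, P.IsHomogeneous (2 * n) → φ P = ((-1) ^ n * Λ P) • vol x := by
  obtain ⟨g, hg⟩ := CStarAlgebra.nonneg_iff_eq_mul_star_self.mp h.pos.posSemidef.nonneg
  have hu : IsUnit g.det := by
    have := h.pos.det_pos.ne'
    rw [hg, det_mul] at this
    exact (left_ne_zero_of_mul this).isUnit
  have e1 : ∀ k l, g⁻¹ * Θ k l * g = g⁻¹ * (Θ k l * H) * g⁻¹ᴴ := fun k l => by
    rw [hg, star_eq_conjTranspose, Matrix.mul_assoc _ (_ * _), Matrix.mul_assoc (Θ k l),
      Matrix.mul_assoc g, ← conjTranspose_mul, nonsing_inv_mul _ hu, conjTranspose_one,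
      Matrix.mul_one, Matrix.mul_assoc]
  let ρ : Fin (2 * n) × Fin (2 * n) → Matrix (Fin (2 * n)) (Fin (2 * n)) ℂ := fun a =>
    ((1 - I) / 2) • Matrix.of (fun k l => (g⁻¹ * Θ k l * g) a.1 a.2) -
      ((1 + I) / 2) • Matrix.of fun k l => (g⁻¹ * Θ k l * g) a.2 a.1
  let φ : MvPolynomial (Fin (2 * n) × Fin (2 * n)) ℂ →ₐ[ℂ] R := aeval fun a => formL x (ρ a)
  have e2 : (uni _).map φ = mform x fun k l => g⁻¹ * Θ k l * g := by
    ext a b
    simp only [uni, mform, φ, ρ, map_apply, of_apply, map_add, map_smul, aeval_X, map_sub]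
    match_scalars <;> (ring_nf; try simp only [I_sq]; ring)
  have e3 : (mform x fun k l => g⁻¹ * Θ k l * g) =
      g⁻¹.map (algebraMap ℂ R) * mform x Θ * g.map (algebraMap ℂ R) := by
    ext a b
    simp only [mform, Matrix.mul_apply, of_apply, map_apply, mul_comm _ (algebraMap ℂ R _),
      ← Algebra.smul_def, ← map_smul, ← map_sum]
    congr 1
    ext k l
    simp [Matrix.sum_apply, mul_comm]
  obtain ⟨T, hT⟩ := Module.Projective.exists_dual_eq_one ℂ (vol_ne hx)
  obtain ⟨N, hN0, hN⟩ := form_pow_vol n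
  have e4 : ∀ z : ℂ, (-1) ^ n * ((-1) ^ n * z) = z := fun z => by
    rw [← mul_assoc, ← mul_pow]; simp
  refine ⟨φ, (-1) ^ n • T ∘ₗ φ.toLinearMap, fun γ => ?_, ?_, fun P hP => ?_, fun P hP => ?_⟩
  · let η : Matrix (Fin (2 * n)) (Fin (2 * n)) ℂ := Matrix.of fun b a =>
      (1 - I) / 2 * γ (a, b) - (1 + I) / 2 * γ (b, a)
    have e5 : ∑ a, (γ a : ℂ) • ρ a =
        Matrix.of fun k l => (g⁻¹ᴴ * η * g⁻¹ * (Θ k l * H)).trace := by
      ext k l
      rw [of_apply, Matrix.mul_assoc _ g⁻¹, Matrix.mul_assoc g⁻¹ᴴ, trace_mul_comm,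
        Matrix.mul_assoc η, ← e1]
      simp only [ρ, η, Matrix.trace, Matrix.diag, Matrix.mul_apply (M := Matrix.of _), of_apply,
        Matrix.sum_apply, Matrix.smul_apply, Matrix.sub_apply, Fintype.sum_prod_type, smul_eq_mul,
        mul_sub, sub_mul, sum_sub_distrib]
      rw [sum_comm]
      simp only [mul_assoc, mul_left_comm (γ _ : ℂ)]
    have e6 : ηᴴ = -η := by
      ext a b
      simp only [η, conjTranspose_apply, of_apply, Matrix.neg_apply, star_def, map_sub, map_mul,
        map_div₀, map_add, map_one, conj_I, conj_ofReal, map_ofNat]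
      ring
    have := h.det_nonneg (ζ := g⁻¹ᴴ * η * g⁻¹) (by simp [e6, Matrix.mul_assoc])
    simp only [LinearMap.smul_apply, LinearMap.comp_apply, AlgHom.toLinearMap_apply, map_pow, φ]
    rw [aeval_lin, hN hx, map_smul, hT, e5, smul_eq_mul, mul_one, mul_assoc]
    simp only [zsmul_eq_mul, Int.cast_pow, Int.cast_neg, Int.cast_one, e4]
    exact mul_nonneg (by exact_mod_cast hN0.le) this
  · rw [e2]
    simp only [mform, Matrix.trace, Matrix.diag, of_apply, ← map_sum]
    rw [← map_zero (formL x)]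
    congr 1
    ext k l
    have := h.trace k l
    rw [← mul_nonsing_inv_cancel_left _ (Θ k l) hu, Matrix.trace_mul_comm] at this
    simpa [Matrix.sum_apply, Matrix.trace] using this
  · rw [ev_ev, e2, e3, hP.conj (mul_nonsing_inv _ hu)]
  · simp only [LinearMap.smul_apply, LinearMap.comp_apply, AlgHom.toLinearMap_apply, zsmul_eq_mul,
      Int.cast_pow, Int.cast_neg, Int.cast_one, e4]
    exact aeval_top hx ρ hP hT

theorem point_bound (hn : 0 < n) {P : MvPolynomial (Fin (2 * n) × Fin (2 * n)) ℂ} (h1 : Inv P)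
    (h2 : P.IsHomogeneous (2 * n)) : ∃ C : ℝ, 0 < C ∧ ∀ {R : Type} [CommRing R] [Algebra ℂ R]
      {x : Fin (2 * n) → Fin (2 * n) → R}, Good x → ∀ H S Θ, Curv H S Θ →
      ‖Classical.epsilon fun d : ℂ => ev (mform x Θ) P = d • vol x‖ ≤ C *
        (Classical.epsilon fun d : ℂ => ev (mform x Θ) (chernPoly _ 2 ^ n) = d • vol x).re := by
  have : Nonempty (Fin (2 * n)) := ⟨⟨0, by omega⟩⟩
  obtain ⟨C, h0, hC⟩ := cone_bound (uni_homog h2)
  refine ⟨C * (8 * Real.pi ^ 2) ^ n, by positivity, fun {R} _ _ {x} hx H S Θ h => ?_⟩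
  obtain ⟨φ, Λ, a1, a2, a3, a4⟩ := h.exists_fun hx
  have hQ : ((∑ a, X a ^ 2) ^ n : MvPolynomial (Fin (2 * n) × Fin (2 * n)) ℂ).IsHomogeneous
      (2 * n) := (IsHomogeneous.sum _ _ _ fun a _ => isHomogeneous_X_pow _ _).pow n
  have e : ev (mform x Θ) (chernPoly _ 2 ^ n) =
      ((((8 * Real.pi ^ 2) ^ n : ℝ)⁻¹ : ℝ) * Λ ((∑ a, X a ^ 2) ^ n)) • vol x := by
    rw [map_pow, a3 _ (chern_inv 2), ev_ev, ev_chern_two _ a2, ← Matrix.map_mul,
      ← AddMonoidHom.map_trace, uni_sq, map_neg, smul_neg, ← neg_smul, smul_pow, ← map_pow,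
      a4 _ hQ, smul_smul, ← mul_assoc, ← mul_pow,
      ← inv_pow]
    simp
  rw [eps_eq hx ((a3 P h1).trans (a4 _ (uni_homog h2))), eps_eq hx e, re_ofReal_mul, mul_assoc,
    mul_inv_cancel_left₀ (by positivity)]
  simpa using hC Λ a1

end

end Pool.Agent.MP_12a176_ag

end

section

/- The curvature of a hyper-Kaehler metric has the symmetries used in the pointwise inequality. -/

set_option autoImplicit false

namespace Pool.Agent.MP_12a176_ag

open Complex Finset Matrix Filter Topology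
open scoped ComplexOrder ContDiff ComplexConjugate

noncomputable section

variable {m : ℕ} {c d : ℂ} {k l : Fin m} {f g : (Fin m → ℂ) → ℂ} {z : Fin m → ℂ}
  {U : Set (Fin m → ℂ)}

theorem wirt_congr (h : f =ᶠ[𝓝 z] g) : wirt c k f z = wirt c k g z := by
  simp only [wirt, h.fderiv_eq]

theorem wirt_mul (hf : DifferentiableAt ℝ f z) (hg : DifferentiableAt ℝ g z) :
    wirt c k (fun w => f w * g w) z = wirt c k f z * g z + f z * wirt c k g z := by
  simp only [wirt, fderiv_fun_mul hf hg, _root_.add_apply,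
    _root_.smul_apply, smul_eq_mul]
  ring

theorem wirt_add (hf : DifferentiableAt ℝ f z) (hg : DifferentiableAt ℝ g z) :
    wirt c k (fun w => f w + g w) z = wirt c k f z + wirt c k g z := by
  simp only [wirt, fderiv_fun_add hf hg, _root_.add_apply]
  ring

theorem wirt_sum {F : Fin m → (Fin m → ℂ) → ℂ} (hF : ∀ a, DifferentiableAt ℝ (F a) z) :
    wirt c k (fun w => ∑ a, F a w) z = ∑ a, wirt c k (F a) z := by
  simp only [wirt, fderiv_fun_sum fun a _ => hF a, _root_.sum_apply, mul_sum,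
    ← sum_add_distrib, sum_div]

theorem wirt_conj : conj (wirt c k f z) = wirt (conj c) k (fun w => conj (f w)) z := by
  have := conjCLE.comp_fderiv (f := f) (x := z)
  simp only [wirt, show (fun w => conj (f w)) = conjCLE ∘ f from rfl, this]
  simp [map_ofNat]

theorem wirt_smooth (hU : IsOpen U) (h : ContDiffOn ℝ ∞ f U) : ContDiffOn ℝ ∞ (wirt c k f) U := by
  have h1 : ContDiffOn ℝ ∞ (fderiv ℝ f) U := h.fderiv_of_isOpen hU (by simp)
  exact ((h1.clm_apply contDiffOn_const).add
    (contDiffOn_const.mul (h1.clm_apply contDiffOn_const))).div_const _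

theorem wirt_comm (h : ContDiffAt ℝ ∞ f z) :
    wirt c l (wirt d k f) z = wirt d k (wirt c l f) z := by
  have h1 : DifferentiableAt ℝ (fderiv ℝ f) z :=
    (h.fderiv_right (m := 1) (by norm_cast)).differentiableAt one_ne_zero
  have h2 : ∀ (c : ℂ) (k : Fin m) (v : Fin m → ℂ), fderiv ℝ (wirt c k f) z v =
      (fderiv ℝ (fderiv ℝ f) z v (Pi.single k 1) +
        c * fderiv ℝ (fderiv ℝ f) z v (Pi.single k I)) / 2 := fun c k v => by
    have := ((((h1.hasFDerivAt.clm_apply (hasFDerivAt_const (Pi.single k 1 : Fin m → ℂ) z))).add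
      ((h1.hasFDerivAt.clm_apply (hasFDerivAt_const (Pi.single k I : Fin m → ℂ) z)).const_mul
        c)).mul_const 2⁻¹).fderiv
    simp only [← div_eq_mul_inv] at this
    rw [show wirt c k f = _ from rfl]
    erw [this]
    simp
    ring
  have h3 := h.isSymmSndFDerivAt (by simp; norm_cast)
  rw [wirt, wirt, h2, h2, h2, h2, h3 (Pi.single l 1), h3 (Pi.single l 1), h3 (Pi.single l I),
    h3 (Pi.single l I)]
  ring

theorem wirt_hol (h : DifferentiableAt ℂ f z) : wirt I k f z = 0 := by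
  have : (Pi.single k I : Fin m → ℂ) = I • (Pi.single k 1 : Fin m → ℂ) := by
    rw [← Pi.single_smul, smul_eq_mul, mul_one]
  rw [wirt, h.fderiv_restrictScalars ℝ, this]
  simp [← mul_assoc]

/-- Entrywise Wirtinger derivative. -/
def mw (c : ℂ) (k : Fin m) (A : (Fin m → ℂ) → Matrix (Fin m) (Fin m) ℂ) (z : Fin m → ℂ) :
    Matrix (Fin m) (Fin m) ℂ := Matrix.of fun i j => wirt c k (fun w => A w i j) z

variable {A B H S : (Fin m → ℂ) → Matrix (Fin m) (Fin m) ℂ}

theorem mw_mul (hA : ∀ i j, DifferentiableAt ℝ (fun w => A w i j) z)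
    (hB : ∀ i j, DifferentiableAt ℝ (fun w => B w i j) z) :
    mw c k (fun w => A w * B w) z = mw c k A z * B z + A z * mw c k B z := by
  ext i j
  simp only [mw, of_apply, Matrix.mul_apply, Matrix.add_apply, ← sum_add_distrib]
  rw [wirt_sum fun a => (hA i a).fun_mul (hB a j)]
  exact sum_congr rfl fun a _ => wirt_mul (hA i a) (hB a j)

theorem mw_congr (h : A =ᶠ[𝓝 z] B) : mw c k A z = mw c k B z := by
  ext i j
  exact wirt_congr (h.mono fun w hw => by simp only [hw])

theorem det_smooth (h : ∀ i j, ContDiffOn ℝ ∞ (fun w => A w i j) U) :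
    ContDiffOn ℝ ∞ (fun w => (A w).det) U := by
  simp only [det_apply']
  exact ContDiffOn.sum fun _ _ => contDiffOn_const.mul (contDiffOn_prod fun _ _ => h _ _)

theorem inv_smooth (h : ∀ i j, ContDiffOn ℝ ∞ (fun w => A w i j) U) (h0 : ∀ w ∈ U, (A w).det ≠ 0)
    (i j : Fin m) : ContDiffOn ℝ ∞ (fun w => (A w)⁻¹ i j) U := by
  simp only [Matrix.inv_def, Ring.inverse_eq_inv', Matrix.smul_apply, smul_eq_mul, adjugate_apply]
  refine ((det_smooth h).inv h0).mul (det_smooth fun a b => ?_)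
  simp only [updateRow_apply]
  split_ifs
  exacts [contDiffOn_const, h a b]

theorem conn_smooth (hU : IsOpen U) (h : ∀ i j, ContDiffOn ℝ ∞ (fun w => H w i j) U)
    (h0 : ∀ w ∈ U, (H w).det ≠ 0) (k i j : Fin m) :
    ContDiffOn ℝ ∞ (fun w => conn H k w i j) U := by
  simp only [conn, Matrix.mul_apply, of_apply]
  exact ContDiffOn.sum fun a _ => (wirt_smooth hU (h i a)).mul (inv_smooth h h0 a j)

theorem LocalHK.curv (h : LocalHK U H S) (hU : IsOpen U) (hH : ∀ w ∈ U, (H w).PosDef) (hz : z ∈ U)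
    (hS : (S z).det ≠ 0) : Curv (H z) (S z) fun k l => -mw I l (conn H k) z := by
  have n := hU.mem_nhds hz
  have h0 : ∀ w ∈ U, (H w).det ≠ 0 := fun w hw => (hH w hw).det_pos.ne'
  have d1 := fun i j => ((h.smooth i j).contDiffAt n).differentiableAt (by simp)
  have d2 := fun k i j => ((conn_smooth hU h.smooth h0 k i j).contDiffAt n).differentiableAt
    (by simp)
  have d3 := fun i j => (h.holomorphic i j z hz).differentiableAt.restrictScalars ℝ
  have e1 : ∀ k l, -mw I l (conn H k) z * H z =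
      mw (-I) k H z * (H z)⁻¹ * mw I l H z - mw I l (mw (-I) k H) z := fun k l => by
    rw [← mw_congr (A := fun w => conn H k w * H w) (B := mw (-I) k H) (eventually_of_mem n fun w hw =>
      nonsing_inv_mul_cancel_right _ _ (h0 w hw).isUnit), mw_mul (d2 k) d1, Matrix.neg_mul]
    exact (sub_add_cancel_right _ _).symm
  have e2 : ∀ c k, ∀ w ∈ U, (mw c k H w)ᴴ = mw (conj c) k H w := fun c k w hw => by
    ext i j
    exact wirt_conj.trans (wirt_congr (eventually_of_mem (hU.mem_nhds hw) fun u hu =>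
      (hH u hu).1.apply i j))
  have e3 : ∀ l, mw I l S z = 0 := fun l => by
    ext i j
    exact wirt_hol (h.holomorphic i j z hz).differentiableAt
  refine ⟨hH z hz, hS, fun k l => ?_, fun k l i a => ?_, fun k l => ?_⟩
  · rw [e1, e1, conjTranspose_sub, conjTranspose_mul, conjTranspose_mul, e2 _ _ _ hz, e2 _ _ _ hz,
      (hH z hz).1.inv.eq, map_neg, conj_I, neg_neg, Matrix.mul_assoc]
    congr 1
    ext i j
    refine wirt_conj.trans ((wirt_congr (eventually_of_mem n fun u hu => ?_)).trans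
      (wirt_comm (d := I) (k := k) ((h.smooth i j).contDiffAt n)) |>.trans ?_)
    · exact (congrFun (congrFun (e2 (-I) k u hu) i) j).trans (by rw [map_neg, conj_I, neg_neg]; rfl)
    · rw [conj_I]; rfl
  · refine congrArg Neg.neg (wirt_congr (eventually_of_mem n fun u hu => ?_))
    simp only [conn, Matrix.mul_apply, of_apply, h.kaehler u hu i _ k]
  · have e4 : mw I l (mw (-I) k S) z = 0 := by
      ext i j
      refine (wirt_comm ((h.holomorphic i j z hz).restrictScalars.contDiffAt)).trans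
        ((wirt_congr (g := fun _ => 0) (eventually_of_mem n fun u hu =>
          wirt_hol (h.holomorphic i j u hu).differentiableAt)).trans ?_)
      simp [wirt]
    have e5 := mw_mul (c := I) (k := l) (d2 k) d3
    have e6 := mw_mul (c := I) (k := l) (B := fun w => (conn H k w)ᵀ) d3 fun i j => d2 k j i
    rw [e3, Matrix.mul_zero, add_zero] at e5
    rw [e3, Matrix.zero_mul, zero_add] at e6
    rw [mw_congr (A := mw (-I) k S) (B := fun w => conn H k w * S w + S w * (conn H k w)ᵀ)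
      (eventually_of_mem n fun u hu => h.parallel u hu k)] at e4
    rw [transpose_neg, Matrix.neg_mul, Matrix.mul_neg, ← neg_add, neg_eq_zero, ← e4, ← e5]
    refine (congrArg _ e6.symm).trans ?_
    ext i j
    refine (wirt_add ?_ ?_).symm <;> simp only [Matrix.mul_apply]
    · exact DifferentiableAt.fun_sum fun a _ => (d2 k i a).mul (d3 a j)
    · exact DifferentiableAt.fun_sum fun a _ => (d3 i a).mul (d2 k j a)

end

end Pool.Agent.MP_12a176_ag

end

section

/- From pointwise inequalities to inequalities between characteristic numbers. -/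

set_option autoImplicit false

namespace Pool.Agent.MP_12a176_ag

open Complex Finset Matrix Filter Topology MeasureTheory
open scoped ComplexOrder ContDiff ComplexConjugate Manifold

noncomputable section

variable {m : ℕ}

theorem wirt_hol' {f : (Fin m → ℂ) → ℂ} {z : Fin m → ℂ} (h : DifferentiableAt ℂ f z) (k : Fin m) :
    wirt (-I) k f z = fderiv ℂ f z (Pi.single k 1) := by
  have : (Pi.single k I : Fin m → ℂ) = I • (Pi.single k 1 : Fin m → ℂ) := by
    rw [← Pi.single_smul, smul_eq_mul, mul_one]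
  rw [wirt, h.fderiv_restrictScalars ℝ, this]
  simp [← mul_assoc]

theorem dens_cont {R : Type} [CommRing R] [Algebra ℂ R] {x : Fin m → Fin m → R} (hx : Good x)
    {U : Set (Fin m → ℂ)} {Θ : (Fin m → ℂ) → Fin m → Fin m → Matrix (Fin m) (Fin m) ℂ}
    (h : ∀ k l a b, ContinuousOn (fun z => Θ z k l a b) U) {P : MvPolynomial (Fin m × Fin m) ℂ}
    (hP : P.IsHomogeneous m) :
    ContinuousOn (fun z => Classical.epsilon fun d : ℂ => ev (mform x (Θ z)) P = d • vol x) U := by
  obtain ⟨T, hT⟩ := Module.Projective.exists_dual_eq_one ℂ (vol_ne hx)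
  have e : ∀ z, (Classical.epsilon fun d : ℂ => ev (mform x (Θ z)) P = d • vol x) =
      T (ev (mform x (Θ z)) P) := fun z =>
    eps_eq hx (aeval_top hx (fun a : Fin m × Fin m => Matrix.of fun k l => Θ z k l a.1 a.2) hP hT)
  simp only [e]
  refine Submodule.span_induction (p := fun P _ =>
    ContinuousOn (fun z => T (ev (mform x (Θ z)) P)) U) ?_ (by simpa using continuousOn_const)
    (fun _ _ _ _ h h' => by simpa using h.fun_add h') (fun c _ _ h => ?_) (mem_span_lin hP)
  · rintro _ ⟨g, rfl⟩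
    obtain ⟨N, -, hN⟩ := form_pow (m := m)
    have : ∀ z, T (ev (mform x (Θ z)) (lin g ^ m)) = (N * (∑ a : Fin m × Fin m, (g a : ℂ) •
        Matrix.of fun k l => Θ z k l a.1 a.2).det) * T (∏ k, x k k) := fun z => by
      rw [map_pow, ← smul_eq_mul, ← map_smul, ← hN hx, ← aeval_lin]; rfl
    simp only [this, det_apply', Matrix.sum_apply, Matrix.smul_apply, of_apply]
    fun_prop
  · simp only [map_smul]
    exact h.const_smul c

/-- Pointwise domination. -/
def Dom (P Q : MvPolynomial (Fin m × Fin m) ℂ) (C : ℝ) : Prop :=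
  ∀ {R : Type} [CommRing R] [Algebra ℂ R] {x : Fin m → Fin m → R}, Good x → ∀ H S Θ, Curv H S Θ →
    ‖Classical.epsilon fun d : ℂ => ev (mform x Θ) P = d • vol x‖ ≤ C *
      (Classical.epsilon fun d : ℂ => ev (mform x Θ) Q = d • vol x).re

theorem cwDens_eq {R : Type} [CommRing R] [Algebra ℂ R] (x : Fin m → Fin m → R)
    (H : (Fin m → ℂ) → Matrix (Fin m) (Fin m) ℂ) (P : MvPolynomial (Fin m × Fin m) ℂ) :
    cwDens x H P = fun z => Classical.epsilon fun d : ℂ =>
      ev (mform x fun k l => -mw I l (conn H k) z) P = d • vol x := rfl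

theorem ext_local {W : Type} [AddCommGroup W] [Module ℂ W] {a b : Fin m → W} (hx : Good (xw a b))
    {P Q : MvPolynomial (Fin m × Fin m) ℂ} {C : ℝ} (hQ : Q.IsHomogeneous m) (hC : Dom P Q C)
    {U : Set (Fin m → ℂ)} {H S : (Fin m → ℂ) → Matrix (Fin m) (Fin m) ℂ} (h : LocalHK U H S)
    (hU : IsOpen U) (hH : ∀ w ∈ U, (H w).PosDef ∧ (S w).det ≠ 0) :
    ContinuousOn (extDens a b H Q) U ∧ ∀ z ∈ U, ‖extDens a b H P z‖ ≤ C * (extDens a b H Q z).re := by
  have e : ∀ P, extDens a b H P = cwDens (xw a b) H P := fun P => rfl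
  simp only [e, cwDens_eq]
  exact ⟨dens_cont hx (fun k l a b => (wirt_smooth hU (conn_smooth hU h.smooth
    (fun w hw => (hH w hw).1.det_pos.ne') k a b)).continuousOn.neg) hQ,
    fun z hz => hC hx _ _ _ (h.curv hU (fun w hw => (hH w hw).1) hz (hH z hz).2)⟩

variable {M : Type*} [TopologicalSpace M] [ChartedSpace (Fin m → ℂ) M]
  [IsManifold 𝓘(ℂ, Fin m → ℂ) ω M]

theorem jac_det (p : M) {z : Fin m → ℂ} (hz : z ∈ (chartAt (Fin m → ℂ) p).target) :
    (jac p z).det ≠ 0 := by
  have h1 := (mdifferentiable_chart (I := 𝓘(ℂ, Fin m → ℂ)) p).symm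
  have h2 := h1.mfderiv_injective hz
  have h3 := h1.mdifferentiableAt hz
  rw [h3.mfderiv] at h2
  have h4 := ((mdifferentiableAt_iff _ _).1 h3).2
  simp only [writtenInExtChartAt, mfld_simps, fderivWithin_univ, differentiableWithinAt_univ]
    at h2 h4
  intro h
  obtain ⟨v, hv, h5⟩ := exists_mulVec_eq_zero_iff.2 h
  refine hv (h2 ((map_zero _).trans (h5.symm.trans (funext fun a => ?_))).symm)
  change _ = fderiv ℂ (chartAt (Fin m → ℂ) ((chartAt (Fin m → ℂ) p).symm z) ∘
    (chartAt (Fin m → ℂ) p).symm) z v a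
  have h6 := fun i => (wirt_hol' (differentiableAt_pi.1 h4 a) i).trans
    (DFunLike.congr_fun (fderiv_apply h4 a) _)
  simp only [Function.comp_apply] at h6
  conv_rhs => rw [pi_eq_sum_univ' v]
  simp [mulVec, dotProduct, jac, h6, mul_comm]

theorem IsHKMetric.curv {h σ : M → Matrix (Fin m) (Fin m) ℂ} (g : IsHKMetric h σ) (p : M)
    {z : Fin m → ℂ} (hz : z ∈ (chartAt (Fin m → ℂ) p).target) : (metricIn h p z).PosDef ∧
    (formIn σ p z).det ≠ 0 := by
  refine ⟨?_, by simp [formIn, jac_det p hz, g.nondegenerate]⟩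
  have : Function.Injective (jac p z)ᵀ.vecMul := by
    rw [vecMul_injective_iff_isUnit, isUnit_iff_isUnit_det, det_transpose]
    exact (jac_det p hz).isUnit
  exact (g.posDef _).mul_mul_conjTranspose_same this

theorem global_bound [T2Space M] [CompactSpace M] {P Q : MvPolynomial (Fin m × Fin m) ℂ} {C : ℝ}
    (hQ : Q.IsHomogeneous m) (hC : Dom P Q C)
    {h σ : M → Matrix (Fin m) (Fin m) ℂ} (g : IsHKMetric h σ) (ρ : PartitionOfUnity M M Set.univ)
    (hρ : ρ.IsSubordinate fun p => (chartAt (Fin m → ℂ) p).source) :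
    |charNumber h ρ P| ≤ C * charNumber h ρ Q := by
  have hs := ρ.locallyFinite.finite_nonempty_of_compact
  have e : ∀ P, charNumber h ρ P = ∑ p ∈ hs.toFinset, ∫ z in (chartAt (Fin m → ℂ) p).target,
      ρ p ((chartAt (Fin m → ℂ) p).symm z) * (extDens dz dzb (metricIn h p) P z).re := fun P => by
    refine finsum_eq_sum_of_support_subset_of_finite _ (fun p hp => ?_) hs
    by_contra h0
    simp only [Set.mem_ofPred_eq, Set.not_nonempty_iff_eq_empty, Function.support_eq_empty_iff] at h0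
    simp [h0] at hp
  rw [e, e, mul_sum]
  refine (abs_sum_le_sum_abs _ _).trans (sum_le_sum fun p _ => ?_)
  set φ := chartAt (Fin m → ℂ) p
  obtain ⟨h2, h1⟩ := ext_local good_dz hQ hC (g.charts p) φ.open_target fun w => g.curv p
  have h3 : IsCompact (φ '' tsupport (ρ p)) := (isClosed_tsupport _).isCompact.image_of_continuousOn
    (φ.continuousOn.mono (hρ p))
  have h4 : φ '' tsupport (ρ p) ⊆ φ.target := by
    rintro _ ⟨y, hy, rfl⟩; exact φ.map_source (hρ p hy)
  have h5 : IntegrableOn (fun z => ρ p (φ.symm z) * (extDens dz dzb (metricIn h p) Q z).re)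
      φ.target := by
    refine IntegrableOn.of_forall_sdiff_eq_zero (ContinuousOn.integrableOn_compact h3
      (ContinuousOn.mono ?_ h4)) φ.open_target.measurableSet fun z hz => ?_
    · exact ((ρ p).continuous.comp_continuousOn φ.continuousOn_symm).mul
        (continuous_re.comp_continuousOn h2)
    · rw [image_eq_zero_of_notMem_tsupport fun h => hz.2 ⟨_, h, φ.right_inv hz.1⟩, zero_mul]
  rw [← integral_const_mul, ← Real.norm_eq_abs]
  refine norm_integral_le_of_norm_le (h5.const_mul C)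
    (ae_restrict_of_forall_mem φ.open_target.measurableSet fun z hz => ?_)
  rw [norm_mul, Real.norm_of_nonneg (ρ.nonneg _ _), mul_left_comm]
  exact mul_le_mul_of_nonneg_left ((abs_re_le_norm _).trans (h1 z hz)) (ρ.nonneg _ _)

end

end Pool.Agent.MP_12a176_ag

end
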