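import Mathlib
import Pool.Agent.Mg.F12a176.Ge2ae14
import Pool.Agent.MP_12a176_ag.ToddDefs

section

/- The product expansion of `(x/2) / sinh (x/2)`, coefficient by coefficient. -/

set_option autoImplicit false

namespace Pool.Agent.MP_12a176_ag

open PowerSeries Finset Filter Topology Complex

noncomputable section

/-- The geometric series. -/
def geo (c : ℂ) : ℂ⟦X⟧ := mk fun p => c ^ p

/-- The inverse roots. -/
def cc (k : ℕ) : ℝ := 1 / (2 * Real.pi * (k + 1))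

theorem cc_pos (k : ℕ) : 0 < cc k := by unfold cc; positivity

/-- Finite products. -/
def aN (N : ℕ) : ℂ⟦X⟧ := ∏ k ∈ range N, geo (cc k * I) * geo (-cc k * I)

/-- The limit. -/
def ahat : ℂ⟦X⟧ := bernoulli'PowerSeries ℂ * rescale (-1 / 2) (exp ℂ)

theorem coeff_XD (f : ℂ⟦X⟧) (p : ℕ) : coeff p (X * d⁄dX ℂ f) = p * coeff p f := by
  cases p with
  | zero => simp
  | succ p => rw [coeff_succ_X_mul, coeff_derivative]; push_cast; ring

theorem geo_ode (c : ℂ) : X * d⁄dX ℂ (geo c) = geo c * (geo c - 1) := by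
  ext p
  rw [coeff_XD, mul_sub, mul_one, map_sub, coeff_mul]
  simp only [geo, coeff_mk]
  rw [sum_congr rfl fun q hq => by rw [← pow_add, mem_antidiagonal.1 hq]]
  simp [add_mul]

theorem aN_ode (N : ℕ) : X * d⁄dX ℂ (aN N) =
    aN N * ∑ k ∈ range N, (geo (cc k * I) + geo (-cc k * I) - 2) := by
  induction N with
  | zero => simp [aN]
  | succ N ih =>
    simp only [aN, prod_range_succ, sum_range_succ, Derivation.leibniz, smul_eq_mul] at ih ⊢
    linear_combination (geo (cc N * I) * geo (-cc N * I)) * ih +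
      (∏ k ∈ range N, geo (cc k * I) * geo (-cc k * I)) *
        (geo (-cc N * I) * geo_ode (cc N * I) + geo (cc N * I) * geo_ode (-cc N * I))

theorem ahat_ode : X * d⁄dX ℂ ahat = ahat * (1 - bernoulliPowerSeries ℂ - C (1 / 2) * X) := by
  have h1 := bernoulliPowerSeries_mul_exp_sub_one ℂ
  have h2 : bernoulli'PowerSeries ℂ = bernoulliPowerSeries ℂ * exp ℂ := by
    refine mul_right_cancel₀ (b := exp ℂ - 1) (fun h => ?_) ?_
    · simpa using congrArg (coeff 1) h
    · rw [bernoulli'PowerSeries_mul_exp_sub_one, mul_right_comm, h1]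
  have h3 := congrArg (d⁄dX ℂ) h1
  have h4 : d⁄dX ℂ (rescale (-1 / 2) (exp ℂ)) = -C (1 / 2) * rescale (-1 / 2) (exp ℂ) := by
    ext p
    rw [coeff_derivative, ← map_neg, coeff_C_mul]
    simp only [coeff_rescale, coeff_exp, Nat.factorial_succ, pow_succ]
    simp
    field_simp
  simp only [ahat, h2, Derivation.leibniz, smul_eq_mul, derivative_exp, h4, map_sub, derivative_X,
    derivative_one] at h3 ⊢
  set b := bernoulliPowerSeries ℂ
  set e := exp ℂ
  set r := rescale (-1 / 2 : ℂ) e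
  linear_combination (r * e * b) * h3 - (r * e * d⁄dX ℂ b + r * e * b) * h1

theorem ode_lim {a L : ℕ → ℂ⟦X⟧} {a' L' : ℂ⟦X⟧} (h : ∀ N, X * d⁄dX ℂ (a N) = a N * L N)
    (h' : X * d⁄dX ℂ a' = a' * L') (h0 : ∀ N, coeff 0 (a N) = coeff 0 a')
    (h1 : ∀ N, coeff 0 (L N) = 0) (h1' : coeff 0 L' = 0)
    (h2 : ∀ p, Tendsto (fun N => coeff p (L N)) atTop (𝓝 (coeff p L'))) (p : ℕ) :
    Tendsto (fun N => coeff p (a N)) atTop (𝓝 (coeff p a')) := by
  induction p using Nat.strong_induction_on with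
  | _ p ih =>
    rcases p with _ | p
    · simp only [h0]; exact tendsto_const_nhds
    have e : ∀ a L : ℂ⟦X⟧, X * d⁄dX ℂ a = a * L → coeff 0 L = 0 → coeff (p + 1) a =
        (∑ q ∈ antidiagonal p, coeff q.1 a * coeff (q.2 + 1) L) / (p + 1 : ℕ) := by
      intro a L h h1
      have := congrArg (coeff (p + 1)) h
      rw [coeff_XD, coeff_mul, Nat.sum_antidiagonal_succ', h1, mul_zero, zero_add] at this
      rw [← this, mul_div_cancel_left₀ _ (Nat.cast_ne_zero.2 p.succ_ne_zero)]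
    simp only [e _ _ (h _) (h1 _), e _ _ h' h1']
    exact (tendsto_finsetSum _ fun q hq => (ih _ (by
      have := mem_antidiagonal.1 hq; omega)).mul (h2 _)).div_const _

theorem aN_tendsto (p : ℕ) : Tendsto (fun N => coeff p (aN N)) atTop (𝓝 (coeff p ahat)) := by
  refine ode_lim aN_ode ahat_ode (fun N => ?_) (fun N => ?_) ?_ (fun p => ?_) p
  · have : constantCoeff (rescale (-1 / 2 : ℂ) (exp ℂ)) = 1 := by
      rw [← coeff_zero_eq_constantCoeff_apply, coeff_rescale]; simp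
    simp [aN, ahat, geo, map_prod, bernoulli'PowerSeries, this]
  · simp [geo, mul_two]
  · simp [bernoulliPowerSeries]
  rcases p with _ | p
  · simp [geo, bernoulliPowerSeries, mul_two]
  have e : ∀ N, coeff (p + 1) (∑ k ∈ range N, (geo (cc k * I) + geo (-cc k * I) - 2)) =
      ∑ k ∈ range N, ((cc k * I) ^ (p + 1) + (-cc k * I) ^ (p + 1)) := fun N => by
    simp only [geo, ← map_ofNat (C : ℂ →+* ℂ⟦X⟧) 2, coeff_C, map_sum, map_sub, map_add, coeff_mk,
      p.succ_ne_zero, if_false, sub_zero]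
  simp only [e]
  rcases Nat.even_or_odd' (p + 1) with ⟨i, hi | hi⟩
  · have h0 : i ≠ 0 := by omega
    have h1 := (hasSum_nat_add_iff' 1).2 (hasSum_zeta_nat h0)
    have h2 := ((hasSum_ofReal.2 h1).mul_left (2 * (I / (2 * Real.pi)) ^ (2 * i))).tendsto_sum_nat
    have hp : (Real.pi : ℂ) ≠ 0 := by exact_mod_cast Real.pi_ne_zero
    convert h2 using 3 with N
    · rw [hi, neg_mul, Even.neg_pow (even_two_mul i), ← two_mul, mul_assoc]
      simp only [cc]
      push_cast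
      rw [← one_div_pow, ← mul_pow]
      congr 2
      rw [one_div, one_div, mul_inv, div_eq_mul_inv]
      ring
    · obtain ⟨j, rfl⟩ := Nat.exists_eq_succ_of_ne_zero h0
      have : p ≠ 0 := by omega
      simp only [map_sub, coeff_C_mul, coeff_one, coeff_X, bernoulliPowerSeries,
        coeff_mk, hi]
      simp only [show 2 * j.succ = 2 * j + 2 by omega, div_pow, mul_pow, pow_succ, pow_mul]
      simp
      field_simp
      ring_nf
      simp [pow_mul', mul_assoc, ← mul_pow]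
  · have : ∀ k, (cc k * I) ^ (p + 1) + (-cc k * I) ^ (p + 1) = 0 := fun k => by
      rw [neg_mul, Odd.neg_pow ⟨i, hi⟩, add_neg_cancel]
    simp only [this, sum_const_zero]
    convert tendsto_const_nhds
    rcases p with _ | p
    · simp [bernoulliPowerSeries]; norm_num
    · simp [bernoulliPowerSeries, bernoulli_eq_zero_of_odd ⟨i, hi⟩ (by omega), coeff_one]

end

end Pool.Agent.MP_12a176_ag

end

section

/- Gaussian moments of Hermitian forms. -/

set_option autoImplicit false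

namespace Pool.Agent.MP_12a176_ag

open Finset Complex MeasureTheory Matrix

noncomputable section

variable {m : ℕ}

/-- The squared norm. -/
def sq2 (a : Fin m → ℂ) : ℝ := ∑ j, ‖a j‖ ^ 2

/-- The Gaussian weight. -/
def gw (a : Fin m → ℂ) : ℝ := Real.exp (-sq2 a) / Real.pi ^ m

theorem gw_pos (a : Fin m → ℂ) : 0 < gw a := by unfold gw; positivity

theorem gw_cont : Continuous (gw (m := m)) := by unfold gw sq2; fun_prop

theorem gauss_one (p : ℕ) :
    ∫ z : ℂ, Real.exp (-‖z‖ ^ 2) / Real.pi * (‖z‖ ^ 2) ^ p = p.factorial := by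
  have := Complex.integral_rpow_mul_exp_neg_rpow (p := 2) (q := (2 * p : ℕ)) (by norm_num)
    (lt_of_lt_of_le (by norm_num) (Nat.cast_nonneg _))
  rw [show (((2 * p : ℕ) : ℝ) + 2) / 2 = p + 1 by push_cast; ring, Real.Gamma_nat_eq_factorial]
    at this
  simp only [Real.rpow_natCast, Real.rpow_two, pow_mul] at this
  simp only [div_mul_eq_mul_div, integral_div, mul_comm (Real.exp _), this]
  field_simp

theorem gauss_mono (α : Fin m → ℕ) : Integrable (fun a => gw a * ∏ j, (‖a j‖ ^ 2) ^ α j) ∧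
    ∫ a, gw a * ∏ j, (‖a j‖ ^ 2) ^ α j = ∏ j, ((α j).factorial : ℝ) := by
  have e : ∀ a : Fin m → ℂ, gw a * ∏ j, (‖a j‖ ^ 2) ^ α j =
      ∏ j, Real.exp (-‖a j‖ ^ 2) / Real.pi * (‖a j‖ ^ 2) ^ α j := fun a => by
    simp [gw, sq2, prod_mul_distrib, ← Real.exp_sum]
  simp only [e]
  refine ⟨Integrable.fintype_prod (f := fun j (z : ℂ) =>
    Real.exp (-‖z‖ ^ 2) / Real.pi * (‖z‖ ^ 2) ^ α j) fun j => Integrable.of_integral_ne_zero ?_, ?_⟩
  · rw [gauss_one]; positivity
  · rw [integral_fintype_prod_volume_eq_prod fun j (z : ℂ) =>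
      Real.exp (-‖z‖ ^ 2) / Real.pi * (‖z‖ ^ 2) ^ α j]
    simp only [gauss_one]

theorem gauss_diag (θ : Fin m → ℝ) (k : ℕ) :
    Integrable (fun a => gw a * (∑ j, θ j * ‖a j‖ ^ 2) ^ k) ∧
    ((∫ a, gw a * (∑ j, θ j * ‖a j‖ ^ 2) ^ k : ℝ) : ℂ) =
      k.factorial * PowerSeries.coeff k (∏ j, geo (θ j)) := by
  have e : ∀ a : Fin m → ℂ, gw a * (∑ j, θ j * ‖a j‖ ^ 2) ^ k = ∑ α ∈ piAntidiag univ k,
      (Nat.multinomial univ α * ∏ j, θ j ^ α j) * (gw a * ∏ j, (‖a j‖ ^ 2) ^ α j) := fun a => by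
    simp only [sum_pow_eq_sum_piAntidiag, mul_sum, mul_pow, prod_mul_distrib]
    exact sum_congr rfl fun _ _ => by ring
  simp only [e]
  refine ⟨integrable_finsetSum _ fun α _ => (gauss_mono α).1.const_mul _, ?_⟩
  rw [integral_finsetSum _ fun α _ => (gauss_mono α).1.const_mul _, PowerSeries.coeff_prod,
    finsuppAntidiag, sum_map, mul_sum, ofReal_sum, ← sum_attach]
  refine sum_congr rfl fun α _ => ?_
  have := Nat.multinomial_spec univ α.1
  rw [(mem_piAntidiag.1 α.2).1] at this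
  rw [integral_const_mul, (gauss_mono α.1).2, ← this]
  simp [geo]
  ring

theorem gw_int {F : (Fin m → ℂ) → ℂ} (hF : Continuous F) {C : ℝ} {k : ℕ}
    (h : ∀ a, ‖F a‖ ≤ C * sq2 a ^ k) : Integrable fun a => gw a • F a := by
  refine ((gauss_diag (fun _ => 1) k).1.const_mul C).mono' (gw_cont.smul hF).aestronglyMeasurable
    (.of_forall fun a => ?_)
  rw [norm_smul, Real.norm_of_nonneg (gw_pos a).le, mul_left_comm]
  simp only [one_mul]
  exact mul_le_mul_of_nonneg_left (h a) (gw_pos a).le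

theorem form_diag (d : Fin m → ℝ) (a : Fin m → ℂ) :
    star a ⬝ᵥ diagonal (fun j => (d j : ℂ)) *ᵥ a = (∑ j, d j * ‖a j‖ ^ 2 : ℝ) := by
  simp only [dotProduct, mulVec_diagonal, Pi.star_apply, star_def, ofReal_sum]
  refine sum_congr rfl fun j _ => ?_
  rw [mul_left_comm, conj_mul']; simp

theorem herm_diag {K : Matrix (Fin m) (Fin m) ℂ} (hK : K.IsHermitian) :
    star (hK.eigenvectorUnitary : Matrix (Fin m) (Fin m) ℂ) * K * hK.eigenvectorUnitary =
      diagonal fun j => (hK.eigenvalues j : ℂ) := by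
  simpa [Function.comp_def] using hK.conjStarAlgAut_star_eigenvectorUnitary

theorem gauss_herm {K : Matrix (Fin m) (Fin m) ℂ} (hK : K.IsHermitian) (c : ℝ) (k : ℕ) :
    ∫ a, gw a • (c * (star a ⬝ᵥ K *ᵥ a)) ^ k =
      k.factorial * PowerSeries.coeff k (∏ j, geo (c * hK.eigenvalues j)) := by
  let U : Matrix (Fin m) (Fin m) ℂ := hK.eigenvectorUnitary
  have hU : star U * U = 1 := Unitary.coe_star_mul_self _
  have e : ∀ (A : Matrix (Fin m) (Fin m) ℂ) (b : Fin m → ℂ),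
      star (U *ᵥ b) ⬝ᵥ A *ᵥ U *ᵥ b = star b ⬝ᵥ (star U * A * U) *ᵥ b := fun A b => by
    rw [star_mulVec, ← dotProduct_mulVec, mulVec_mulVec, mulVec_mulVec, star_eq_conjTranspose]
  let f : (Fin m → ℂ) →ₗ[ℝ] Fin m → ℂ := (Matrix.toLin' U).restrictScalars ℝ
  have h1 : LinearMap.det f = 1 := by
    have := congrArg det hU
    rw [det_mul, star_eq_conjTranspose, det_conjTranspose, det_one, star_def,
      ← normSq_eq_conj_mul_self] at this
    rw [LinearMap.det_restrictScalars, Algebra.norm_complex_apply, LinearMap.det_toLin']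
    exact_mod_cast this
  have h2 := Measure.map_linearMap_addHaar_eq_smul_addHaar volume (h1.trans_ne one_ne_zero)
  rw [h1, inv_one, abs_one, ENNReal.ofReal_one, one_smul] at h2
  have h3 : Continuous fun a : Fin m → ℂ => gw a • (c * (star a ⬝ᵥ K *ᵥ a)) ^ k :=
    gw_cont.smul (by fun_prop)
  rw [← h2, integral_map f.continuous_of_finiteDimensional.aemeasurable h3.aestronglyMeasurable]
  have := (gauss_diag (fun j => c * hK.eigenvalues j) k).2
  push_cast at this
  rw [← this, ← integral_complex_ofReal]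
  congr 1
  ext b
  have h4 := e 1 b
  have h5 := e K b
  rw [Matrix.mul_one, hU, ← diagonal_one, ← ofReal_one, form_diag, form_diag] at h4
  rw [herm_diag, form_diag] at h5
  have h6 : gw (U *ᵥ b) = gw b := by
    simp only [one_mul, ofReal_inj] at h4
    simp only [gw, sq2, h4]
  change gw (U *ᵥ b) • (c * (star (U *ᵥ b) ⬝ᵥ K *ᵥ U *ᵥ b)) ^ k = _
  rw [h5, h6]
  simp [mul_sum, mul_assoc]

end

end Pool.Agent.MP_12a176_ag

end

section

/- The cone of moment series. -/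

set_option autoImplicit false

namespace Pool.Agent.MP_12a176_ag

open Finset Complex MeasureTheory PowerSeries
open scoped ComplexOrder

noncomputable section

variable {ι : Type} [Fintype ι] {m : ℕ}

/-- Series with polynomial coefficients. -/
abbrev PS (ι : Type) : Type := (MvPolynomial ι ℂ)⟦X⟧

/-- The exponential series of a polynomial. -/
def Ex (l : MvPolynomial ι ℂ) : PS ι := rescale l (exp _)

omit [Fintype ι] in
theorem coeff_Ex (l : MvPolynomial ι ℂ) (k : ℕ) :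
    coeff k (Ex l) = (k.factorial : ℂ)⁻¹ • l ^ k := by
  rw [Ex, coeff_rescale, coeff_exp, mul_comm, ← Algebra.smul_def, ← algebraMap_smul ℂ]
  simp

theorem lin_add (g g' : ι → ℝ) : lin (g + g') = lin g + lin g' := by
  simp only [lin, Pi.add_apply, ofReal_add, add_smul, sum_add_distrib]

theorem Ex_mul (g g' : ι → ℝ) : Ex (lin g) * Ex (lin g') = Ex (lin (g + g')) := by
  rw [lin_add]; exact exp_mul_exp_eq_exp_add _ _

/-- Functionals that only see degrees up to `m`. -/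
def Fn (m : ℕ) (Ψ : PS ι →ₗ[ℂ] ℂ) : Prop := ∀ y, Ψ (X ^ (m + 1) * y) = 0

omit [Fintype ι] in
theorem Fn.sum {Ψ : PS ι →ₗ[ℂ] ℂ} (h : Fn m Ψ) (y : PS ι) :
    Ψ y = ∑ k ∈ range (m + 1), Ψ (monomial k (coeff k y)) := by
  obtain ⟨z, hz⟩ : X ^ (m + 1) ∣ y - ∑ k ∈ range (m + 1), monomial k (coeff k y) :=
    X_pow_dvd_iff.2 fun j hj => by simp [coeff_monomial, hj]
  rw [← map_sum, ← sub_eq_zero, ← map_sub, hz, h]

/-- The cone. -/
def Kc (m : ℕ) (y : PS ι) : Prop :=
  ∀ Ψ : PS ι →ₗ[ℂ] ℂ, Fn m Ψ → (∀ g, 0 ≤ Ψ (Ex (lin g))) → 0 ≤ Ψ y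

theorem Kc.mul {y z : PS ι} (hy : Kc m y) (hz : Kc m z) : Kc m (y * z) := fun Ψ h1 h2 =>
  hz (Ψ ∘ₗ LinearMap.mulLeft ℂ y) (fun u => by simpa [mul_left_comm] using h1 (y * u)) fun g =>
    hy (Ψ ∘ₗ LinearMap.mulRight ℂ (Ex (lin g))) (fun u => by simpa [mul_assoc] using h1 _)
      fun g' => by simpa [Ex_mul] using h2 _

theorem Kc.one : Kc m (1 : PS ι) := fun Ψ _ h => by simpa [lin, Ex] using h 0

theorem Kc.prod {α : Type} {s : Finset α} {y : α → PS ι} (h : ∀ a ∈ s, Kc m (y a)) :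
    Kc m (∏ a ∈ s, y a) := prod_induction _ _ (fun _ _ => Kc.mul) Kc.one h

/-- The span of the elements of the cone that are dominated by `F`. -/
def Wc (m : ℕ) (F : PS ι) : Submodule ℂ (PS ι) :=
  Submodule.span ℂ {P | Kc m P ∧ ∃ C : ℝ, 0 ≤ C ∧ Kc m ((C : ℂ) • F - P)}

theorem Wc_mul {F F' P P' : PS ι} (hF : Kc m F') (h : P ∈ Wc m F) (h' : P' ∈ Wc m F') :
    P * P' ∈ Wc m (F * F') := by
  have h0 := Submodule.mul_mem_mul h h'
  rw [Wc, Wc, Submodule.span_mul_span] at h0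
  refine Submodule.span_le.2 ?_ h0
  rintro _ ⟨P, ⟨h1, C, h2, h3⟩, P', ⟨h1', C', h2', h3'⟩, rfl⟩
  refine Submodule.subset_span ⟨h1.mul h1', C * C', by positivity, fun Ψ a b => ?_⟩
  have : ((C * C' : ℝ) : ℂ) • (F * F') - P * P' =
      (C' : ℂ) • (((C : ℂ) • F - P) * F') + P * ((C' : ℂ) • F' - P') := by
    simp only [sub_mul, mul_sub, smul_sub, smul_mul_assoc, mul_smul_comm, smul_smul, ofReal_mul,
      mul_comm (C' : ℂ)]
    abel
  rw [this, map_add, map_smul]
  exact add_nonneg (mul_nonneg (by exact_mod_cast h2') (h3.mul hF Ψ a b)) (h1.mul h3' Ψ a b)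

theorem Wc_prod {α : Type} {s : Finset α} {F P : α → PS ι} (hF : ∀ a ∈ s, Kc m (F a))
    (h : ∀ a ∈ s, P a ∈ Wc m (F a)) : ∏ a ∈ s, P a ∈ Wc m (∏ a ∈ s, F a) := by
  induction s using Finset.cons_induction with
  | empty => exact Submodule.subset_span ⟨by simpa using Kc.one, 1, zero_le_one, fun Ψ _ _ => by simp⟩
  | cons a s ha ih =>
    rw [prod_cons, prod_cons]
    exact Wc_mul (Kc.prod fun b hb => hF b (mem_cons_of_mem hb)) (h a (mem_cons_self _ _))
      (ih (fun b hb => hF b (mem_cons_of_mem hb)) fun b hb => h b (mem_cons_of_mem hb))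

theorem Wc_bound {F P : PS ι} (h : P ∈ Wc m F) : ∃ C : ℝ, 0 ≤ C ∧ ∀ Ψ : PS ι →ₗ[ℂ] ℂ, Fn m Ψ →
    (∀ g, 0 ≤ Ψ (Ex (lin g))) → ‖Ψ P‖ ≤ C * (Ψ F).re := by
  induction h using Submodule.span_induction with
  | mem P h =>
    obtain ⟨h1, C, h2, h3⟩ := h
    refine ⟨C, h2, fun Ψ a b => ?_⟩
    have := (Complex.nonneg_iff.1 (h3 Ψ a b)).1
    rw [map_sub, map_smul, smul_eq_mul, sub_re, re_ofReal_mul] at this
    rw [← re_eq_norm.2 (h1 Ψ a b)]
    linarith
  | zero => exact ⟨0, le_rfl, by simp⟩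
  | add P Q _ _ h h' =>
    obtain ⟨C, h0, h⟩ := h
    obtain ⟨C', h0', h'⟩ := h'
    exact ⟨C + C', by positivity, fun Ψ a b => by
      rw [map_add, add_mul]; exact (norm_add_le _ _).trans (add_le_add (h Ψ a b) (h' Ψ a b))⟩
  | smul c P _ h =>
    obtain ⟨C, h0, h⟩ := h
    exact ⟨‖c‖ * C, by positivity, fun Ψ a b => by
      rw [map_smul, norm_smul, mul_assoc]
      exact mul_le_mul_of_nonneg_left (h Ψ a b) (norm_nonneg _)⟩

theorem mem_Wc {F P : PS ι} (h : ∀ Ψ : PS ι →ₗ[ℂ] ℂ, Fn m Ψ → (∀ w ∈ Wc m F, Ψ w = 0) → Ψ P = 0) :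
    P ∈ Wc m F := by
  by_contra hP
  obtain ⟨Ψ, h1, h2⟩ := (Wc m F).exists_dual_map_eq_bot_of_notMem hP inferInstance
  have h3 : ∀ w ∈ Wc m F, Ψ w = 0 := fun w hw => (Submodule.eq_bot_iff _).1 h2 _ ⟨w, hw, rfl⟩
  exact h1 (h Ψ (fun y => h3 _ (Submodule.subset_span ⟨fun Φ a _ => (a y).ge, 0, le_rfl,
    fun Φ a _ => by simp [a y]⟩)) h3)

/-- Polynomials seen through a functional, in degree `k`. -/
def inDeg (Ψ : PS ι →ₗ[ℂ] ℂ) (k : ℕ) : MvPolynomial ι ℂ →ₗ[ℂ] ℂ :=
  Ψ ∘ₗ (monomial k).restrictScalars ℂ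

theorem monomial_mem_Wc [DecidableEq ι] {F : PS ι} (h : ∀ g, Ex (lin g) ∈ Wc m F)
    {p : MvPolynomial ι ℂ} (hp : p.IsHomogeneous m) : monomial m p ∈ Wc m F := by
  refine mem_Wc fun Ψ h1 h2 => polar hp (inDeg Ψ m) fun g => ?_
  let q : Polynomial ℂ := ∑ k ∈ range (m + 1),
    Polynomial.monomial k ((k.factorial : ℂ)⁻¹ * inDeg Ψ k (lin g ^ k))
  have : q = 0 := by
    refine Polynomial.eq_zero_of_infinite_isRoot _
      ((Set.infinite_range_of_injective ofReal_injective).mono ?_)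
    rintro _ ⟨s, rfl⟩
    have e : lin (s • g) = (s : ℂ) • lin g := by
      simp only [lin, smul_sum, smul_smul, Pi.smul_apply, smul_eq_mul, ofReal_mul]
    refine Eq.trans ?_ (h2 _ (h (s • g)))
    rw [h1.sum, Polynomial.eval_finsetSum]
    refine sum_congr rfl fun k _ => ?_
    change _ = inDeg Ψ k _
    rw [coeff_Ex, e, smul_pow, map_smul, map_smul]
    simp only [Polynomial.eval_monomial, smul_eq_mul]
    ring
  have := congrArg (Polynomial.coeff · m) this
  simpa [q, Polynomial.coeff_monomial, m.factorial_ne_zero] using this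

section average

variable {d : ℕ} {G : (Fin d → ℂ) → ι → ℝ} {B : ℝ}

/-- Gaussian averages of exponential series. -/
def gavg (G : (Fin d → ℂ) → ι → ℝ) (s : Set (Fin d → ℂ)) : PS ι :=
  PowerSeries.mk fun k => (k.factorial : ℂ)⁻¹ • ∑ j : Fin k → ι,
    (∫ a in s, gw a • ∏ i, (G a (j i) : ℂ)) • ∏ i, MvPolynomial.X (j i)

theorem gavg_coeff (hG : Continuous G) (hB : ∀ a i, |G a i| ≤ B * sq2 a)
    (Λ : MvPolynomial ι ℂ →ₗ[ℂ] ℂ) (k : ℕ) :
    Integrable (fun a => gw a • Λ (lin (G a) ^ k)) ∧ ∀ s, Λ (coeff k (gavg G s)) =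
      (k.factorial : ℂ)⁻¹ * ∫ a in s, gw a • Λ (lin (G a) ^ k) := by
  have h : ∀ j : Fin k → ι, Integrable fun a => gw a • ∏ i, (G a (j i) : ℂ) := fun j =>
    gw_int (C := B ^ k) (k := k) (by fun_prop) fun a => by
      rw [norm_prod, ← mul_pow, ← Fin.prod_const]
      exact prod_le_prod (fun _ _ => norm_nonneg _) fun i _ => by simpa using hB a (j i)
  simp only [lin_pow, smul_sum, ← smul_mul_assoc]
  refine ⟨integrable_finsetSum _ fun j _ => (h j).mul_const _, fun s => ?_⟩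
  rw [integral_finsetSum _ fun j _ => ((h j).mul_const _).integrableOn]
  simp only [gavg, coeff_mk, map_smul, map_sum, smul_eq_mul, integral_mul_const]

theorem gavg_apply (hG : Continuous G) (hB : ∀ a i, |G a i| ≤ B * sq2 a) {Ψ : PS ι →ₗ[ℂ] ℂ}
    (h : Fn m Ψ) : Continuous (fun a => gw a • Ψ (Ex (lin (G a)))) ∧
    Integrable (fun a => gw a • Ψ (Ex (lin (G a)))) ∧
      ∀ s, Ψ (gavg G s) = ∫ a in s, gw a • Ψ (Ex (lin (G a))) := by
  have e : ∀ a, gw a • Ψ (Ex (lin (G a))) = ∑ k ∈ range (m + 1),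
      (k.factorial : ℂ)⁻¹ * (gw a • inDeg Ψ k (lin (G a) ^ k)) := fun a => by
    rw [h.sum, smul_sum]
    refine sum_congr rfl fun k _ => ?_
    change gw a • inDeg Ψ k _ = _
    rw [coeff_Ex, map_smul, smul_eq_mul, mul_smul_comm]
  have h1 := fun k => (gavg_coeff hG hB (inDeg Ψ k) k).1.const_mul (k.factorial : ℂ)⁻¹
  simp only [e]
  refine ⟨?_, integrable_finsetSum _ fun k _ => h1 k, fun s => ?_⟩
  · have := gw_cont (m := d)
    simp only [lin_pow]
    fun_prop
  · rw [integral_finsetSum _ fun k _ => (h1 k).integrableOn, h.sum]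
    refine sum_congr rfl fun k _ => ?_
    rw [integral_const_mul]
    exact (gavg_coeff hG hB (inDeg Ψ k) k).2 s

theorem gavg_Kc (hG : Continuous G) (hB : ∀ a i, |G a i| ≤ B * sq2 a) (s : Set (Fin d → ℂ)) :
    Kc m (gavg G s) := fun Ψ h1 h2 => by
  rw [(gavg_apply hG hB h1).2.2]
  exact integral_nonneg fun a => smul_nonneg (gw_pos a).le (h2 _)

theorem Ex_mem_Wc (hG : Continuous G) (hB : ∀ a i, |G a i| ≤ B * sq2 a) (a : Fin d → ℂ) :
    Ex (lin (G a)) ∈ Wc m (gavg G Set.univ) := by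
  refine mem_Wc fun Ψ h1 h2 => ?_
  obtain ⟨h3, h4, h5⟩ := gavg_apply hG hB h1
  have := (h3.ae_eq_iff_eq volume continuous_zero).1
    (h4.ae_eq_zero_of_forall_setIntegral_eq_zero fun s hs _ => ?_)
  · exact (smul_eq_zero.1 (congrFun this a)).resolve_left (gw_pos a).ne'
  rw [← h5]
  refine h2 _ (Submodule.subset_span ⟨gavg_Kc hG hB s, 1, zero_le_one, fun Φ a b => ?_⟩)
  obtain ⟨-, h6, h7⟩ := gavg_apply hG hB a
  rw [ofReal_one, one_smul, map_sub, h7, h7, Measure.restrict_univ, ← integral_add_compl hs h6,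
    add_sub_cancel_left, ← h7]
  exact gavg_Kc hG hB _ Φ a b

end average

theorem Wc_final {F : PS ι} {p : MvPolynomial ι ℂ} (hF : Kc m F) (h : monomial m p ∈ Wc m F) :
    ∃ C : ℝ, 0 ≤ C ∧ ∀ Λ : MvPolynomial ι ℂ →ₗ[ℂ] ℂ, (∀ g, 0 ≤ Λ (lin g ^ m)) → ∀ Q : PS ι,
      Kc m Q → constantCoeff Q = 1 → ‖Λ p‖ ≤ C * (Λ (coeff m (F * Q))).re := by
  obtain ⟨C, h0, hC⟩ := Wc_bound h
  refine ⟨C, h0, fun Λ hΛ Q hQ h1 => ?_⟩
  let Ψ : PS ι →ₗ[ℂ] ℂ := Λ ∘ₗ (coeff m).restrictScalars ℂ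
  have a1 : ∀ y, Fn m (Ψ ∘ₗ LinearMap.mulRight ℂ y) := fun y u => by
    simp [Ψ, mul_assoc, coeff_X_pow_mul']
  have a2 : ∀ g g', 0 ≤ (Ψ ∘ₗ LinearMap.mulRight ℂ (Ex (lin g))) (Ex (lin g')) := fun g g' => by
    simp only [Ψ, LinearMap.comp_apply, LinearMap.mulRight_apply, Ex_mul,
      LinearMap.restrictScalars_apply, coeff_Ex, map_smul]
    exact mul_nonneg (by positivity) (hΛ _)
  have := hQ ((C : ℂ) • Ψ ∘ₗ LinearMap.mulRight ℂ F - (‖Λ p‖ : ℂ) •
    MvPolynomial.lcoeff ℂ 0 ∘ₗ (coeff 0).restrictScalars ℂ) (fun u => ?_) fun g => ?_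
  · simpa [Ψ, h1, mul_comm Q] using (Complex.nonneg_iff.1 this).1
  · rw [LinearMap.sub_apply, LinearMap.smul_apply, a1]
    simp
  · have b1 := hC _ (a1 _) (a2 g)
    have b2 := hF _ (a1 _) (a2 g)
    have b3 : coeff m (monomial m p * Ex (lin g)) = p := by
      rw [monomial_eq_C_mul_X_pow, mul_assoc, coeff_C_mul, coeff_X_pow_mul']
      simp [coeff_Ex]
    simp only [Ψ, LinearMap.comp_apply, LinearMap.mulRight_apply, LinearMap.restrictScalars_apply,
      b3, LinearMap.sub_apply, LinearMap.smul_apply, mul_comm (Ex _), coeff_Ex] at b1 b2 ⊢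
    rw [Complex.nonneg_iff] at b2 ⊢
    simp [b1, ← b2.2]

end

end Pool.Agent.MP_12a176_ag

end

section

/- The Todd form dominates every Chern form. -/

set_option autoImplicit false

namespace Pool.Agent.MP_12a176_ag

open Finset Complex MeasureTheory PowerSeries Matrix Filter Topology
open scoped ComplexOrder ComplexConjugate

noncomputable section

variable {m n : ℕ} {R S : Type} [CommRing R] [Algebra ℂ R] [CommRing S] [Algebra ℂ S]

/-- The matrix `A / (1 - exp (-A))`. -/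
def tdE (A : Matrix (Fin m) (Fin m) R) : Matrix (Fin m) (Fin m) R⟦X⟧ :=
  Matrix.of fun a b => PowerSeries.mk fun k => ((bernoulli' k / k.factorial : ℚ) : ℂ) • (A ^ k) a b

theorem td_map (φ : R →ₐ[ℂ] S) (A : Matrix (Fin m) (Fin m) R) :
    PowerSeries.map (φ : R →+* S) (tdE A).det = (tdE (A.map φ)).det := by
  rw [RingHom.map_det]
  congr 1
  ext a b k
  have := congrFun (congrFun (map_pow φ.mapMatrix A k) a) b
  simp only [AlgHom.mapMatrix_apply, map_apply] at this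
  simp [tdE, ← this]

theorem ev_todd (Θ : Matrix (Fin m) (Fin m) R) :
    ev Θ (toddPoly m) = coeff m (tdE ((I / (2 * Real.pi)) • Θ)).det := by
  have := congrArg (coeff m) (td_map (ev Θ) ((I / (2 * Real.pi)) • mvPolynomialX (Fin m) (Fin m) ℂ))
  rw [coeff_map] at this
  refine this.trans ?_
  congr 3
  ext a b
  simp

theorem td_conj {g g' : Matrix (Fin m) (Fin m) ℂ} (hg : g * g' = 1) (A : Matrix (Fin m) (Fin m) ℂ) :
    (tdE (g' * A * g)).det = (tdE A).det := by
  have h1 : ∀ k, (g' * A * g) ^ k = g' * A ^ k * g := fun k => by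
    induction k with
    | zero => simp [mul_eq_one_comm.1 hg]
    | succ k ih =>
      rw [pow_succ, ih, pow_succ]
      simp only [Matrix.mul_assoc]
      rw [← Matrix.mul_assoc g, hg, Matrix.one_mul]
  have h2 : tdE (g' * A * g) = g'.map C * tdE A * g.map C := by
    ext a b k
    simp only [tdE, h1, Matrix.mul_apply, of_apply, coeff_mk, map_apply, map_sum, coeff_mul_C,
      coeff_C_mul, smul_eq_mul, sum_mul, mul_sum]
    exact sum_congr rfl fun _ _ => sum_congr rfl fun _ _ => by ring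
  rw [h2, det_mul, det_mul, mul_right_comm, ← det_mul, ← Matrix.map_mul, mul_eq_one_comm.1 hg]
  simp

theorem todd_inv : Inv (toddPoly m) := fun g g' Θ hg => by
  rw [ev_todd, ev_todd, ← Matrix.smul_mul, ← Matrix.mul_smul, td_conj hg]

theorem td_herm {K : Matrix (Fin m) (Fin m) ℂ} (hK : K.IsHermitian) :
    (tdE K).det = ∏ j, rescale (hK.eigenvalues j : ℂ) (bernoulli'PowerSeries ℂ) := by
  rw [← td_conj (Unitary.coe_mul_star_self hK.eigenvectorUnitary), Unitary.coe_star, herm_diag,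
    ← det_diagonal]
  congr 1
  ext a b k
  by_cases h : a = b <;> simp [tdE, diagonal_pow, h, bernoulli'PowerSeries, mul_comm]

section graded

variable {ι : Type}

/-- Graded series. -/
def Gr (y : PS ι) : Prop := ∀ k, (coeff k y).IsHomogeneous k

theorem Gr.mul {y z : PS ι} (hy : Gr y) (hz : Gr z) : Gr (y * z) := fun k => by
  rw [coeff_mul]
  exact MvPolynomial.IsHomogeneous.sum _ _ _ fun p hp => mem_antidiagonal.1 hp ▸ (hy _).mul (hz _)

theorem Gr.int (z : ℤ) : Gr (z : PS ι) := fun k => by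
  rw [← map_intCast (C : _ →+* PS ι), coeff_C, ← map_intCast (MvPolynomial.C : ℂ →+* _)]
  split_ifs with h
  exacts [h ▸ MvPolynomial.isHomogeneous_C _ _, MvPolynomial.isHomogeneous_zero _ _ _]

theorem Gr.prod {α : Type} {s : Finset α} {y : α → PS ι} (h : ∀ a ∈ s, Gr (y a)) :
    Gr (∏ a ∈ s, y a) := prod_induction _ _ (fun _ _ => Gr.mul) (by simpa using Gr.int 1) h

theorem homog_smul {p : MvPolynomial ι ℂ} {k : ℕ} (c : ℂ) (h : p.IsHomogeneous k) :
    (c • p).IsHomogeneous k := (MvPolynomial.homogeneousSubmodule ι ℂ k).smul_mem c h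

theorem Gr.td {A : Matrix (Fin m) (Fin m) (MvPolynomial ι ℂ)} (h : ∀ a b, (A a b).IsHomogeneous 1) :
    Gr (tdE A).det := by
  have h1 : ∀ k a b, ((A ^ k) a b).IsHomogeneous k := fun k => by
    induction k with
    | zero =>
      intro a b
      rw [pow_zero, one_apply]
      split_ifs
      exacts [MvPolynomial.isHomogeneous_one _ _, MvPolynomial.isHomogeneous_zero _ _ _]
    | succ k ih =>
      intro a b
      rw [pow_succ, Matrix.mul_apply]
      exact MvPolynomial.IsHomogeneous.sum _ _ _ fun c _ => (ih a c).mul (h c b)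
  intro k
  rw [det_apply', map_sum]
  exact MvPolynomial.IsHomogeneous.sum _ _ _ fun π _ => (Gr.int _).mul (Gr.prod fun a _ k => by
    simpa [tdE] using homog_smul _ (h1 k _ _)) k

theorem Gr.ex {l : MvPolynomial ι ℂ} (h : l.IsHomogeneous 1) : Gr (Ex l) := fun k => by
  rw [coeff_Ex]
  simpa using homog_smul _ (h.pow k)

theorem Gr.gavg [Fintype ι] {d : ℕ} (G : (Fin d → ℂ) → ι → ℝ) (s : Set (Fin d → ℂ)) :
    Gr (gavg G s) := fun k => by
  rw [Pool.Agent.MP_12a176_ag.gavg, coeff_mk]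
  refine homog_smul _ (MvPolynomial.IsHomogeneous.sum _ _ _ fun j _ => homog_smul _ ?_)
  simpa using MvPolynomial.IsHomogeneous.prod univ (fun i => MvPolynomial.X (R := ℂ) (j i))
    (fun _ => 1) fun i _ => MvPolynomial.isHomogeneous_X _ _

/-- Evaluation at a real point. -/
abbrev evr (γ : ι → ℝ) : MvPolynomial ι ℂ →ₐ[ℂ] ℂ := MvPolynomial.aeval fun a => (γ a : ℂ)

theorem tendsto_fun [Finite ι] {P : ℕ → MvPolynomial ι ℂ} {Q : MvPolynomial ι ℂ}
    (hP : ∀ N, (P N).IsHomogeneous m) (hQ : Q.IsHomogeneous m)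
    (h : ∀ γ, Tendsto (fun N => evr γ (P N)) atTop (𝓝 (evr γ Q)))
    (Λ : MvPolynomial ι ℂ →ₗ[ℂ] ℂ) : Tendsto (fun N => Λ (P N)) atTop (𝓝 (Λ Q)) := by
  let W := MvPolynomial.restrictTotalDegree ι ℂ m
  have := FiniteDimensional.mem_span_of_iInf_ker_le_ker
    (L := fun γ => (evr γ).toLinearMap ∘ₗ W.subtype) (K := Λ ∘ₗ W.subtype) fun p hp => by
      have : p.1 = 0 := MvPolynomial.funext_set (fun _ => Set.range ((↑) : ℝ → ℂ))
        (fun _ => Set.infinite_range_of_injective ofReal_injective) fun x hx => by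
          choose g hg using fun a => hx a trivial
          simpa [hg] using (Submodule.mem_iInf _).1 hp g
      simp [this]
  have hW : ∀ {p : MvPolynomial ι ℂ}, p.IsHomogeneous m → p ∈ W := fun h =>
    (MvPolynomial.mem_restrictTotalDegree _ _ _).2 h.totalDegree_le
  refine Submodule.span_induction (p := fun L _ =>
    Tendsto (fun N => L ⟨_, hW (hP N)⟩) atTop (𝓝 (L ⟨_, hW hQ⟩))) ?_ tendsto_const_nhds
    (fun _ _ _ _ h h' => h.add h') (fun c _ _ h => h.const_smul c) this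
  rintro _ ⟨γ, rfl⟩
  exact h γ

end graded

theorem todd_homog : (toddPoly m).IsHomogeneous m :=
  Gr.td (fun _ _ => homog_smul _ (MvPolynomial.isHomogeneous_X _ _)) m

/-- The universal Hermitian matrix. -/
def Mm (m : ℕ) : Matrix (Fin m) (Fin m) (MvPolynomial (Fin m × Fin m) ℂ) :=
  (I / (2 * Real.pi)) • uni m

theorem Mm_homog (a b : Fin m) : (Mm m a b).IsHomogeneous 1 :=
  homog_smul _ ((homog_smul _ (MvPolynomial.isHomogeneous_X _ _)).add
    (homog_smul _ (MvPolynomial.isHomogeneous_X _ _)))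

theorem Mm_apply (γ : Fin m × Fin m → ℝ) (a b : Fin m) : (Mm m).map (evr γ) a b =
    ((I - 1) * γ (a, b) + (-I - 1) * γ (b, a)) / (4 * Real.pi) := by
  have : (Real.pi : ℂ) ≠ 0 := by exact_mod_cast Real.pi_ne_zero
  simp only [Mm, uni, map_apply, Matrix.smul_apply, of_apply, map_smul, map_add,
    MvPolynomial.aeval_X, smul_eq_mul]
  field_simp
  linear_combination (4 * γ (a, b) + 4 * γ (b, a) : ℂ) * I_sq

theorem Mm_herm (γ : Fin m × Fin m → ℝ) : ((Mm m).map (evr γ)).IsHermitian := by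
  ext a b
  rw [conjTranspose_apply, Mm_apply, Mm_apply]
  simp [add_comm]

/-- The coordinates of `c a a*`. -/
def Gq (c : ℝ) (a : Fin m → ℂ) (p : Fin m × Fin m) : ℝ :=
  c * ((I - 1) * (conj (a p.1) * a p.2)).re / (2 * Real.pi)

theorem Gq_cont (c : ℝ) : Continuous (Gq (m := m) c) := by unfold Gq; fun_prop

theorem Gq_le (c : ℝ) (a : Fin m → ℂ) (p : Fin m × Fin m) : |Gq c a p| ≤ |c| * sq2 a := by
  have h : ∀ j, ‖a j‖ ^ 2 ≤ sq2 a := fun j =>
    single_le_sum (f := fun j => ‖a j‖ ^ 2) (fun _ _ => sq_nonneg _) (mem_univ j)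
  have h1 := abs_re_le_norm ((I - 1) * (conj (a p.1) * a p.2))
  have h2 : ‖I - 1‖ ≤ 2 := (norm_sub_le _ _).trans (by norm_num)
  rw [norm_mul, norm_mul, norm_conj] at h1
  rw [Gq, mul_div_assoc, abs_mul, abs_div, abs_of_pos Real.two_pi_pos]
  refine mul_le_mul_of_nonneg_left ((div_le_iff₀ Real.two_pi_pos).2 (h1.trans ?_)) (abs_nonneg _)
  have h3 : ‖a p.1‖ * ‖a p.2‖ ≤ sq2 a := by
    nlinarith [h p.1, h p.2, sq_nonneg (‖a p.1‖ - ‖a p.2‖)]
  rw [mul_comm (sq2 a)]
  exact mul_le_mul (by linarith [Real.pi_gt_three]) h3 (by positivity) Real.two_pi_pos.le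

theorem evr_Gq (γ : Fin m × Fin m → ℝ) (c : ℝ) (a : Fin m → ℂ) :
    evr γ (lin (Gq c a)) = c * (star a ⬝ᵥ (Mm m).map (evr γ) *ᵥ a) := by
  have : (Real.pi : ℂ) ≠ 0 := by exact_mod_cast Real.pi_ne_zero
  simp only [lin, map_sum, map_smul, MvPolynomial.aeval_X, dotProduct, mulVec, Mm_apply, add_div,
    add_mul, mul_add, mul_sum, sum_add_distrib, Fintype.sum_prod_type]
  rw [sum_comm (f := fun a' b' => (c : ℂ) * (star a a' * ((-I - 1) * _ / _ * _))),
    ← sum_add_distrib]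
  refine sum_congr rfl fun b _ => ?_
  rw [← sum_add_distrib]
  refine sum_congr rfl fun d _ => ?_
  simp only [Gq, ofReal_div, ofReal_mul, re_eq_add_conj, map_mul, map_sub, conj_I, map_one,
    conj_conj, Pi.star_apply, star_def, smul_eq_mul, ofReal_ofNat]
  field_simp
  ring

theorem evr_gavg (γ : Fin m × Fin m → ℝ) (c : ℝ) :
    PowerSeries.map (evr γ : MvPolynomial (Fin m × Fin m) ℂ →+* ℂ) (gavg (Gq c) Set.univ) =
      ∏ j, geo (c * (Mm_herm γ).eigenvalues j) := by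
  ext k
  have := (gavg_coeff (Gq_cont c) (Gq_le c) (evr γ).toLinearMap k).2 Set.univ
  simp only [AlgHom.toLinearMap_apply, map_pow, evr_Gq, Measure.restrict_univ,
    gauss_herm (Mm_herm γ)] at this
  rw [coeff_map, RingHom.coe_coe, this, inv_mul_cancel_left₀ (by exact_mod_cast k.factorial_ne_zero)]

/-- The factors. -/
def Fk (m k : ℕ) : PS (Fin m × Fin m) := gavg (Gq (cc k)) Set.univ * gavg (Gq (-cc k)) Set.univ

theorem Fk_Kc (k : ℕ) : Kc m (Fk m k) :=
  (gavg_Kc (Gq_cont _) (Gq_le _) _).mul (gavg_Kc (Gq_cont _) (Gq_le _) _)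

theorem Fk_const (k : ℕ) : constantCoeff (Fk m k) = 1 := by
  have h : ∫ a : Fin m → ℂ, (gw a : ℂ) = 1 := by
    rw [integral_complex_ofReal]
    simpa using (gauss_mono (m := m) 0).2
  simp [Fk, gavg, h]

theorem Ex_mem (g : Fin m × Fin m → ℝ) : Ex (lin g) ∈ Wc m (∏ k : Fin m, Fk m k) := by
  let N : Matrix (Fin m) (Fin m) ℂ := Matrix.of fun d b =>
    -Real.pi * (g (b, d) + g (d, b)) + I * Real.pi * (g (d, b) - g (b, d))
  have hN : N.IsHermitian := by
    ext a b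
    simp [N]
    ring
  let U : Matrix (Fin m) (Fin m) ℂ := hN.eigenvectorUnitary
  let l := hN.eigenvalues
  have h1 : N = U * diagonal (fun j => (l j : ℂ)) * star U := by
    simpa [Function.comp_def] using hN.spectral_theorem
  have h2 : ∀ (c s : ℝ) (u : Fin m → ℂ), Gq c (fun b => s * u b) = (c * s ^ 2) • Gq 1 u := by
    intro c s u
    ext p
    rw [Gq, show (I - 1) * (conj (s * u p.1) * (s * u p.2)) =
      (s ^ 2 : ℝ) * ((I - 1) * (conj (u p.1) * u p.2)) by simp; ring, re_ofReal_mul]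
    simp [Gq]
    ring
  have h3 : g = ∑ j : Fin m, (Gq (cc j) (fun b => √(max (l j) 0 / cc j) * U b j) +
      Gq (-cc j) fun b => √(max (-l j) 0 / cc j) * U b j) := by
    have e : ∀ j : Fin m, cc j * √(max (l j) 0 / cc j) ^ 2 + -cc j * √(max (-l j) 0 / cc j) ^ 2 =
        l j := fun j => by
      have := cc_pos j
      rw [Real.sq_sqrt (by positivity), Real.sq_sqrt (by positivity), neg_mul, mul_div_cancel₀ _ this.ne',
        mul_div_cancel₀ _ this.ne', ← sub_eq_add_neg, max_zero_sub_max_neg_zero_eq_self]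
    simp only [h2, ← add_smul, e]
    ext p
    have h4 := congrArg (fun A => ((I - 1) * A p.2 p.1).re / (2 * Real.pi)) h1
    simp only [Matrix.mul_apply (N := star U), mul_diagonal, star_apply, mul_sum, re_sum,
      sum_div] at h4
    rw [Finset.sum_apply, show g p = ((I - 1) * N p.2 p.1).re / (2 * Real.pi) by
      simp [N]; field_simp; ring, h4]
    refine sum_congr rfl fun j _ => ?_
    rw [show (I - 1) * (U p.2 j * l j * star (U p.1 j)) =
      l j * ((I - 1) * (conj (U p.1 j) * U p.2 j)) by rw [star_def]; ring, re_ofReal_mul]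
    simp [Gq, mul_div_assoc]
  have h4 : ∀ (s : Finset (Fin m)) (G : Fin m → Fin m × Fin m → ℝ),
      Ex (lin (∑ j ∈ s, G j)) = ∏ j ∈ s, Ex (lin (G j)) := fun s G => by
    induction s using Finset.cons_induction with
    | empty => simp [lin, Ex]
    | cons a s ha ih => rw [sum_cons, prod_cons, ← Ex_mul, ih]
  rw [h3, h4]
  refine Wc_prod (fun k _ => Fk_Kc k) fun k _ => ?_
  rw [← Ex_mul]
  exact Wc_mul (gavg_Kc (Gq_cont _) (Gq_le _) _) (Ex_mem_Wc (Gq_cont _) (Gq_le _) _)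
    (Ex_mem_Wc (Gq_cont _) (Gq_le _) _)

/-- The series of the genus without the first Chern class. -/
def Ah (m : ℕ) : PS (Fin m × Fin m) := (tdE (Mm m)).det * Ex ((-1 / 2 : ℂ) • (Mm m).trace)

theorem Ah_gr : Gr (Ah m) := (Gr.td Mm_homog).mul (Gr.ex (homog_smul _
  (MvPolynomial.IsHomogeneous.sum _ _ _ fun a _ => Mm_homog a a)))

theorem map_Ex {ι : Type} (φ : MvPolynomial ι ℂ →ₐ[ℂ] R) (l : MvPolynomial ι ℂ) :
    PowerSeries.map (φ : _ →+* R) (Ex l) = PowerSeries.mk fun k => (k.factorial : ℂ)⁻¹ • φ l ^ k := by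
  ext k
  simp [coeff_Ex]

open PowerSeries.WithPiTopology in
theorem evr_tendsto (γ : Fin m × Fin m → ℝ) (p : ℕ) :
    Tendsto (fun N => evr γ (I ^ p • coeff p (∏ k ∈ range N, Fk m k))) atTop
      (𝓝 (evr γ (coeff p (Ah m)))) := by
  set x := (Mm_herm γ).eigenvalues
  have h1 : ∀ N, evr γ (I ^ p • coeff p (∏ k ∈ range N, Fk m k)) =
      coeff p (∏ j, rescale (x j : ℂ) (aN N)) := fun N => by
    have : ∀ c y : ℂ, rescale I (geo (c * y)) = rescale y (geo (c * I)) := fun c y => by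
      ext k; simp [geo]; ring
    rw [map_smul, smul_eq_mul, ← RingHom.coe_coe, ← coeff_map, ← coeff_rescale]
    simp only [Fk, aN, map_prod, map_mul, evr_gavg, this, ← prod_mul_distrib, ofReal_neg]
    rw [Finset.prod_comm]
  have h2 : evr γ (coeff p (Ah m)) = coeff p (∏ j, rescale (x j : ℂ) ahat) := by
    have : ∀ s : Finset (Fin m), ∏ j ∈ s, rescale (-1 / 2 * x j : ℂ) (PowerSeries.exp ℂ) =
        rescale (-1 / 2 * ∑ j ∈ s, (x j : ℂ)) (PowerSeries.exp ℂ) := fun s => by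
      induction s using Finset.cons_induction with
      | empty => simp
      | cons a s ha ih => rw [sum_cons, prod_cons, ih, exp_mul_exp_eq_exp_add, mul_add]
    rw [← RingHom.coe_coe, ← coeff_map, Ah, map_mul, td_map, td_herm (Mm_herm γ), map_Ex, map_smul,
      AddMonoidHom.map_trace, (Mm_herm γ).trace_eq_sum_eigenvalues]
    simp only [ahat, map_mul, prod_mul_distrib, rescale_rescale, this]
    congr 2
    ext k
    simp [x, mul_comm]
  simp only [h1, h2]
  refine (continuous_coeff ℂ p).continuousAt.tendsto.comp (tendsto_finsetProd _ fun j _ => ?_)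
  simp only [tendsto_iff_coeff_tendsto, coeff_rescale]
  exact fun q => (aN_tendsto q).const_mul _

theorem todd_Ah (φ : MvPolynomial (Fin m × Fin m) ℂ →ₐ[ℂ] R) (h : ((uni m).map φ).trace = 0) :
    φ (ev (uni m) (toddPoly m)) = φ (coeff m (Ah m)) := by
  have : PowerSeries.map (φ : _ →+* R) (Ex ((-1 / 2 : ℂ) • (Mm m).trace)) = 1 := by
    rw [map_Ex, Mm, trace_smul, map_smul, map_smul, AddMonoidHom.map_trace, h]
    ext k
    cases k <;> simp [coeff_one]
  have e : PowerSeries.map (φ : _ →+* R) (Ah m) = PowerSeries.map (φ : _ →+* R) (tdE (Mm m)).det := by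
    rw [Ah, map_mul, this, mul_one]
  rw [ev_todd]
  simpa only [coeff_map, RingHom.coe_coe, Mm] using (congrArg (coeff m) e).symm

theorem Ah_bound {P : MvPolynomial (Fin m × Fin m) ℂ} (h : P.IsHomogeneous m) :
    ∃ C : ℝ, 0 ≤ C ∧ ∀ Λ : MvPolynomial (Fin m × Fin m) ℂ →ₗ[ℂ] ℂ, (∀ g, 0 ≤ Λ (lin g ^ m)) →
      ∀ c : ℂ, c * I ^ m = 1 → ‖Λ P‖ ≤ C * (c * Λ (coeff m (Ah m))).re := by
  obtain ⟨C, h0, hC⟩ := Wc_final (F := ∏ k : Fin m, Fk m k) (Kc.prod fun k _ => Fk_Kc k)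
    (monomial_mem_Wc Ex_mem h)
  refine ⟨C, h0, fun Λ a1 c hc => ?_⟩
  have h1 : ∀ N, Gr (∏ k ∈ range N, Fk m k) := fun N =>
    Gr.prod fun k _ => (Gr.gavg _ _).mul (Gr.gavg _ _)
  have h2 := tendsto_fun (fun N => homog_smul (I ^ m) (h1 N m)) (Ah_gr m)
    (fun γ => evr_tendsto γ m) Λ
  refine ge_of_tendsto ((continuous_re.continuousAt.tendsto.comp (h2.const_mul c)).const_mul C)
    (eventually_atTop.2 ⟨m, fun N hN => ?_⟩)
  have := hC Λ a1 (∏ k ∈ Ico m N, Fk m k) (Kc.prod fun k _ => Fk_Kc k)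
    (by simp [map_prod, Fk_const])
  rw [Fin.prod_univ_eq_prod_range, prod_range_mul_prod_Ico _ hN] at this
  simpa [← mul_assoc, hc] using this

theorem todd_dom {P : MvPolynomial (Fin (2 * n) × Fin (2 * n)) ℂ} (h1 : Inv P)
    (h2 : P.IsHomogeneous (2 * n)) : ∃ C : ℝ, 0 ≤ C ∧ Dom P (toddPoly (2 * n)) C := by
  obtain ⟨C, h0, hC⟩ := Ah_bound (uni_homog h2)
  refine ⟨C, h0, fun {R} _ _ {x} hx H S Θ h => ?_⟩
  obtain ⟨φ, Λ, a1, a2, a3, a4⟩ := h.exists_fun hx
  rw [eps_eq hx ((a3 P h1).trans (a4 _ (uni_homog h2))),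
    eps_eq hx ((a3 _ todd_inv).trans ((todd_Ah φ a2).trans (a4 _ (Ah_gr _))))]
  simpa using hC Λ a1 ((-1) ^ n) (by simp [pow_mul, ← mul_pow])

end

end Pool.Agent.MP_12a176_ag

end
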